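import Pool.Agent.H17.KzHom

open Finset BigOperators

namespace Pool.Agent.H17.Kz

theorem finrank_range_prod {K : Type*} [Field K] {V1 V2 W1 W2 W : Type*}
    [AddCommGroup V1] [Module K V1] [AddCommGroup V2] [Module K V2] [AddCommGroup W1] [Module K W1]
    [AddCommGroup W2] [Module K W2] [AddCommGroup W] [Module K W]
    [FiniteDimensional K W1] [FiniteDimensional K W2]
    (a : V1 →ₗ[K] W1) (b : V2 →ₗ[K] W2) (J : (W1 × W2) →ₗ[K] W) (hJ : Function.Injective J)
    (P : Submodule K W) (h1 : ∀ x y, J (a x, b y) ∈ P)
    (h2 : ∀ p ∈ P, ∃ x y, p = J (a x, b y)) :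
    Module.finrank K P = Module.finrank K (LinearMap.range a) + Module.finrank K (LinearMap.range b) := by
  let G : (LinearMap.range a × LinearMap.range b) →ₗ[K] W :=
    J ∘ₗ (LinearMap.prodMap (Submodule.subtype _) (Submodule.subtype _))
  have hG : Function.Injective G := by
    apply hJ.comp
    intro x y hxy
    apply Prod.ext
    · exact Subtype.ext (congrArg Prod.fst hxy)
    · exact Subtype.ext (congrArg Prod.snd hxy)
  have hr : LinearMap.range G = P := by
    apply le_antisymm
    · rintro _ ⟨⟨⟨_, ⟨x, rfl⟩⟩, ⟨_, ⟨y, rfl⟩⟩⟩, rfl⟩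
      exact h1 x y
    · intro p hp
      obtain ⟨x, y, rfl⟩ := h2 p hp
      exact ⟨(⟨_, ⟨x, rfl⟩⟩, ⟨_, ⟨y, rfl⟩⟩), rfl⟩
  rw [← hr, LinearMap.finrank_range_of_inj hG, Module.finrank_prod]

theorem ann_abs {K : Type*} [Field K] {V W E : Type*}
    [AddCommGroup V] [Module K V] [AddCommGroup W] [Module K W] [AddCommGroup E] [Module K E]
    [FiniteDimensional K W] [FiniteDimensional K E] (f : V →ₗ[K] W)
    (Θ : Module.Dual K W →ₗ[K] E) (hΘ : ∀ lam, Θ lam = 0 → lam = 0)
    (D : Submodule K E)
    (h : ∀ lam : Module.Dual K W, (∀ x, lam (f x) = 0) → Θ lam ∈ D) :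
    Module.finrank K W ≤ Module.finrank K (LinearMap.range f) + Module.finrank K D := by
  have h1 := Subspace.finrank_add_finrank_dualAnnihilator_eq (LinearMap.range f)
  have h2 : Module.finrank K (LinearMap.range f).dualAnnihilator ≤ Module.finrank K D := by
    have hinj : Function.Injective Θ := (injective_iff_map_eq_zero Θ).mpr hΘ
    have h3 := LinearEquiv.finrank_eq
      (Submodule.equivMapOfInjective Θ hinj (LinearMap.range f).dualAnnihilator)
    rw [h3]
    apply Submodule.finrank_mono
    rintro _ ⟨lam, hlam, rfl⟩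
    apply h
    intro y
    have h4 := (Submodule.mem_dualAnnihilator lam).mp hlam
    exact h4 _ ⟨y, rfl⟩
  omega

theorem alt_sum_apply {K : Type*} [Field K] {n i : ℕ} {M : Type*} [AddCommGroup M] [Module K M]
    {ι : Type*} (s : Finset ι) (f : ι → KC K n M i) (v : Fin i → Fin n → K) :
    (∑ k ∈ s, f k) v = ∑ k ∈ s, f k v := by
  classical
  induction s using Finset.induction_on with
  | empty => simp
  | insert a s ha ih => rw [Finset.sum_insert ha, Finset.sum_insert ha, AlternatingMap.add_apply, ih]

variable {K : Type*} [Field K] {n m : ℕ}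

variable (K n) in
/-- first piece of the Koszul differential -/
noncomputable def del0 (i : ℕ) : KC K n K (i + 1) →ₗ[K] KC K n (Fin n → K) i where
  toFun c := ∑ k, (LinearMap.single K (fun _ => K) k).compAlternatingMap (c.curryLeft (Pi.single k 1))
  map_add' c c' := by
    ext v
    simp only [alt_sum_apply, AlternatingMap.add_apply, LinearMap.compAlternatingMap_apply,
      AlternatingMap.curryLeft_apply_apply, map_add, Finset.sum_add_distrib]
  map_smul' a c := by
    ext v
    simp only [alt_sum_apply, AlternatingMap.smul_apply, LinearMap.compAlternatingMap_apply,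
      AlternatingMap.curryLeft_apply_apply, map_smul, Finset.smul_sum, RingHom.id_apply]

theorem del0_apply (i : ℕ) (c : KC K n K (i + 1)) (v : Fin i → Fin n → K) (k : Fin n) :
    del0 K n i c v k = c (Matrix.vecCons (Pi.single k 1) v) := by
  simp only [del0, LinearMap.coe_mk, AddHom.coe_mk, alt_sum_apply,
    LinearMap.compAlternatingMap_apply, AlternatingMap.curryLeft_apply_apply, Finset.sum_apply]
  rw [Finset.sum_eq_single k]
  · simp
  · intro b _ hb
    simp [hb.symm]
  · simp

theorem del0_inj (i : ℕ) : Function.Injective (del0 K n i) := by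
  rw [← LinearMap.ker_eq_bot, LinearMap.ker_eq_bot']
  intro c hc
  apply Module.Basis.ext_alternating (Pi.basisFun K (Fin n))
  intro t _
  have h := congrArg (fun f => f (fun a => Pi.basisFun K (Fin n) (t (Fin.succ a))) (t 0)) hc
  simp only [del0_apply, AlternatingMap.zero_apply, Pi.zero_apply] at h
  rw [AlternatingMap.zero_apply, ← h]
  congr 1
  funext a
  refine Fin.cases ?_ (fun a => ?_) a
  · simp
  · simp

/-- multiplication by `ξ_k` from `R₁` to `R₂` -/
noncomputable def mulq (c : Fin m → Fin n → Fin n → K) (k : Fin n) : (Fin n → K) →ₗ[K] (Fin m → K) where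
  toFun u := fun j => ∑ q, c j k q * u q
  map_add' u v := by funext j; simp only [Pi.add_apply, mul_add, Finset.sum_add_distrib]
  map_smul' a u := by
    funext j
    simp only [Pi.smul_apply, smul_eq_mul, RingHom.id_apply, Finset.mul_sum]
    apply Finset.sum_congr rfl; intro q _; ring

/-- second piece of the Koszul differential -/
noncomputable def del1 (c : Fin m → Fin n → Fin n → K) (i : ℕ) :
    KC K n (Fin n → K) (i + 1) →ₗ[K] KC K n (Fin m → K) i where
  toFun f := ∑ k, (mulq c k).compAlternatingMap (f.curryLeft (Pi.single k 1))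
  map_add' c c' := by
    ext v
    simp only [alt_sum_apply, AlternatingMap.add_apply, LinearMap.compAlternatingMap_apply,
      AlternatingMap.curryLeft_apply_apply, map_add, Finset.sum_add_distrib]
  map_smul' a c := by
    ext v
    simp only [alt_sum_apply, AlternatingMap.smul_apply, LinearMap.compAlternatingMap_apply,
      AlternatingMap.curryLeft_apply_apply, map_smul, Finset.smul_sum, RingHom.id_apply]

theorem del1_apply (c : Fin m → Fin n → Fin n → K) (i : ℕ) (f : KC K n (Fin n → K) (i + 1))
    (v : Fin i → Fin n → K) (j : Fin m) :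
    del1 c i f v j = ∑ k, ∑ q, c j k q * f (Matrix.vecCons (Pi.single k 1) v) q := by
  simp only [del1, LinearMap.coe_mk, AddHom.coe_mk, alt_sum_apply,
    LinearMap.compAlternatingMap_apply, AlternatingMap.curryLeft_apply_apply, Finset.sum_apply]
  rfl

section rank
variable {c : Fin m → Fin n → Fin n → K} {R : Type*} [CommRing R] [Algebra K R]
  (A : Short K n m c R)

/-- inclusion of the pieces -/
noncomputable def Jmap (i : ℕ) :
    (KC K n (Fin n → K) i × KC K n (Fin m → K) i) →ₗ[K] KC K n R i where
  toFun x := (A.Φ.toLinearMap ∘ₗ LinearMap.inr K K _ ∘ₗ LinearMap.inl K _ _).compAlternatingMap x.1 +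
    (A.Φ.toLinearMap ∘ₗ LinearMap.inr K K _ ∘ₗ LinearMap.inr K _ _).compAlternatingMap x.2
  map_add' x y := by
    ext v
    simp only [Prod.fst_add, Prod.snd_add, AlternatingMap.add_apply,
      LinearMap.compAlternatingMap_apply, map_add]
    abel
  map_smul' a x := by
    ext v
    simp only [Prod.smul_fst, Prod.smul_snd, AlternatingMap.add_apply, AlternatingMap.smul_apply,
      LinearMap.compAlternatingMap_apply, map_smul, RingHom.id_apply, smul_add]

theorem Jmap_apply (i : ℕ) (x : KC K n (Fin n → K) i × KC K n (Fin m → K) i)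
    (v : Fin i → Fin n → K) : Jmap A i x v = A.Φ (0, x.1 v, x.2 v) := by
  have h : Jmap A i x v = A.Φ (0, x.1 v, 0) + A.Φ (0, 0, x.2 v) := rfl
  rw [h, ← map_add]
  congr 1
  simp

theorem Jmap_inj (i : ℕ) : Function.Injective (Jmap A i) := by
  rw [← LinearMap.ker_eq_bot, LinearMap.ker_eq_bot']
  intro x hx
  have h : ∀ v, A.Φ (0, x.1 v, x.2 v) = 0 := by
    intro v
    rw [← Jmap_apply, hx]
    simp
  have h2 : ∀ v, x.1 v = 0 ∧ x.2 v = 0 := by
    intro v
    have h3 := (LinearEquiv.map_eq_zero_iff A.Φ).mp (h v)
    simp only [Prod.mk_eq_zero, true_and] at h3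
    exact h3
  apply Prod.ext
  · ext1 v; exact (h2 v).1
  · ext1 v; exact (h2 v).2

theorem kdiff_eq (i : ℕ) (f : KC K n R (i + 1)) :
    kdiff K A.ξ R i f = Jmap A i (del0 K n i (A.cst.compAlternatingMap f),
      del1 c i (A.lin.compAlternatingMap f)) := by
  ext v
  rw [Jmap_apply, kdiff_apply]
  apply A.ext
  · rw [A.cst_Φ]
    simp only [smul_eq_mul, map_sum, A.cst_ξ_mul, Finset.sum_const_zero]
  · rw [A.lin_Φ]
    funext k
    simp only [smul_eq_mul, map_sum, A.lin_ξ_mul, Finset.sum_apply, del0_apply,
      LinearMap.compAlternatingMap_apply]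
    rw [Finset.sum_eq_single k]
    · simp
    · intro b _ hb
      rw [Pi.single_eq_of_ne hb.symm]
    · simp
  · rw [A.quad_Φ]
    funext j
    simp only [smul_eq_mul, map_sum, A.quad_ξ_mul, Finset.sum_apply, del1_apply,
      LinearMap.compAlternatingMap_apply]

include A in
theorem Short.finrank_R : Module.finrank K R = 1 + n + m := by
  rw [← LinearEquiv.finrank_eq A.Φ, Module.finrank_prod, Module.finrank_prod]
  simp
  ring

theorem rank_kdiff (i : ℕ) : Module.finrank K (LinearMap.range (kdiff K A.ξ R i)) =
    n.choose (i + 1) + Module.finrank K (LinearMap.range (del1 c i)) := by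
  rw [finrank_range_prod (del0 K n i) (del1 c i) (Jmap A i) (Jmap_inj A i)
    (LinearMap.range (kdiff K A.ξ R i))]
  · congr 1
    rw [LinearMap.finrank_range_of_inj (del0_inj i), finrank_KC]
    simp
  · intro a b
    let f : KC K n R (i + 1) := (A.Φ.toLinearMap ∘ₗ LinearMap.inl K K _).compAlternatingMap a +
      (A.Φ.toLinearMap ∘ₗ LinearMap.inr K K _ ∘ₗ LinearMap.inl K _ _).compAlternatingMap b
    refine ⟨f, ?_⟩
    rw [kdiff_eq]
    have h1 : A.cst.compAlternatingMap f = a := by
      ext v
      have : f v = A.Φ (a v, 0) + A.Φ (0, b v, 0) := rfl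
      rw [LinearMap.compAlternatingMap_apply, this, map_add, A.cst_Φ, A.cst_Φ]
      simp
    have h2 : A.lin.compAlternatingMap f = b := by
      ext1 v
      have : f v = A.Φ (a v, 0) + A.Φ (0, b v, 0) := rfl
      rw [LinearMap.compAlternatingMap_apply, this, map_add, A.lin_Φ, A.lin_Φ]
      simp
    rw [h1, h2]
  · rintro _ ⟨f, rfl⟩
    exact ⟨_, _, kdiff_eq A i f⟩

end rank

section ann

/-- the coordinate alternating form attached to a tuple -/
noncomputable def eps {i : ℕ} (t : Fin i → Fin n) : KC K n K i :=
  (Matrix.detRowAlternating (n := Fin i) (R := K)).compLinearMap (LinearMap.funLeft K K t)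

theorem eps_apply {i : ℕ} (t : Fin i → Fin n) (v : Fin i → Fin n → K) :
    eps t v = Matrix.det (Matrix.of fun a b => v a (t b)) := rfl

/-- `eps t ⊗ e_j` -/
noncomputable def elt {i r : ℕ} (t : Fin i → Fin n) (j : Fin r) : KC K n (Fin r → K) i :=
  (LinearMap.single K (fun _ => K) j).compAlternatingMap (eps t)

theorem elt_apply {i r : ℕ} (t : Fin i → Fin n) (j j' : Fin r) (v : Fin i → Fin n → K) :
    (elt t j : KC K n (Fin r → K) i) v j' = if j' = j then eps t v else 0 := by
  simp only [elt, LinearMap.compAlternatingMap_apply, LinearMap.single_apply]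
  by_cases h : j' = j
  · subst h; simp
  · rw [Pi.single_eq_of_ne h, if_neg h]

theorem ann_rank (c : Fin m → Fin n → Fin n → K) (i : ℕ) {E : Type*} [AddCommGroup E] [Module K E]
    [FiniteDimensional K E]
    (Θ : Module.Dual K (KC K n (Fin m → K) i) →ₗ[K] E) (hΘ : ∀ lam, Θ lam = 0 → lam = 0)
    (D : Submodule K E)
    (h : ∀ lam : Module.Dual K (KC K n (Fin m → K) i), (∀ f, lam (del1 c i f) = 0) → Θ lam ∈ D) :
    n.choose i * m ≤ Module.finrank K (LinearMap.range (del1 c i)) + Module.finrank K D := by
  have h1 := ann_abs (del1 c i) Θ hΘ D h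
  rw [finrank_KC] at h1
  simpa using h1

/-- the pairing with the standard elements -/
noncomputable def theta (i : ℕ) : Module.Dual K (KC K n (Fin m → K) i) →ₗ[K]
    ((Fin i → Fin n) → Fin m → K) where
  toFun lam := fun t j => lam (elt t j)
  map_add' x y := by funext t j; simp
  map_smul' a x := by funext t j; simp

theorem theta_apply (i : ℕ) (lam : Module.Dual K (KC K n (Fin m → K) i)) (t : Fin i → Fin n)
    (j : Fin m) : theta i lam t j = lam (elt t j) := rfl

theorem theta_inj_of_span (i : ℕ)
    (h : ∀ c : KC K n (Fin m → K) i, c ∈ Submodule.span K (Set.range (fun x : (Fin i → Fin n) × Fin m =>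
      (elt x.1 x.2 : KC K n (Fin m → K) i))))
    (lam : Module.Dual K (KC K n (Fin m → K) i)) (hl : theta i lam = 0) : lam = 0 := by
  apply LinearMap.ext
  intro c
  rw [LinearMap.zero_apply]
  have hc := h c
  induction hc using Submodule.span_induction with
  | mem x hx =>
    obtain ⟨⟨t, j⟩, rfl⟩ := hx
    exact congrFun (congrFun hl t) j
  | zero => simp
  | add x y _ _ hx hy => rw [map_add, hx, hy, add_zero]
  | smul a x _ hx => rw [map_smul, hx, smul_zero]

theorem span0 (c : KC K n (Fin m → K) 0) : c ∈ Submodule.span K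
    (Set.range (fun x : (Fin 0 → Fin n) × Fin m => (elt x.1 x.2 : KC K n (Fin m → K) 0))) := by
  have h : c = ∑ j, c ![] j • elt ![] j := by
    ext1 v
    rw [alt_sum_apply]
    funext j
    simp only [Finset.sum_apply, AlternatingMap.smul_apply, Pi.smul_apply, smul_eq_mul, elt_apply]
    have hv : v = ![] := by funext x; exact x.elim0
    rw [hv]
    simp [eps_apply]
  rw [h]
  apply Submodule.sum_mem
  intro j _
  apply Submodule.smul_mem
  apply Submodule.subset_span
  exact ⟨(![], j), rfl⟩

theorem span1 (c : KC K n (Fin m → K) 1) : c ∈ Submodule.span K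
    (Set.range (fun x : (Fin 1 → Fin n) × Fin m => (elt x.1 x.2 : KC K n (Fin m → K) 1))) := by
  have h : c = ∑ p, ∑ j, c ![Pi.single p 1] j • elt ![p] j := by
    apply Module.Basis.ext_alternating (Pi.basisFun K (Fin n))
    intro t _
    rw [alt_sum_apply]
    simp only [alt_sum_apply]
    funext j
    simp only [Finset.sum_apply, AlternatingMap.smul_apply, Pi.smul_apply, smul_eq_mul, elt_apply]
    rw [Finset.sum_eq_single (t 0)]
    · have hv : (fun i => (Pi.basisFun K (Fin n)) (t i)) = ![Pi.single (t 0) 1] := by
        funext x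
        fin_cases x
        simp
      rw [hv]
      simp [eps_apply]
    · intro p _ hp
      apply Finset.sum_eq_zero
      intro j' _
      simp [eps_apply, hp]
    · simp
  rw [h]
  apply Submodule.sum_mem
  intro p _
  apply Submodule.sum_mem
  intro j _
  apply Submodule.smul_mem
  apply Submodule.subset_span
  exact ⟨(![p], j), rfl⟩

theorem span2 (c : KC K n (Fin m → K) 2) : c ∈ Submodule.span K
    (Set.range (fun x : (Fin 2 → Fin n) × Fin m => (elt x.1 x.2 : KC K n (Fin m → K) 2))) := by
  have h : c = ∑ p, ∑ q, ∑ j, (if p < q then c ![Pi.single p 1, Pi.single q 1] j else 0) •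
      elt ![p, q] j := by
    apply Module.Basis.ext_alternating (Pi.basisFun K (Fin n))
    intro t ht
    simp only [alt_sum_apply]
    funext j
    simp only [Finset.sum_apply, AlternatingMap.smul_apply, Pi.smul_apply, smul_eq_mul, elt_apply]
    have hv : (fun i => (Pi.basisFun K (Fin n)) (t i)) =
        ![Pi.single (t 0) 1, Pi.single (t 1) 1] := by
      funext x
      fin_cases x
      · simp
      · simp
    rw [hv]
    have hne : t 0 ≠ t 1 := fun h => by simpa using ht h
    have hsum : ∀ p q : Fin n, ∑ j', (if p < q then c ![Pi.single p 1, Pi.single q 1] j' else 0) *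
        (if j = j' then eps ![p, q] ![Pi.single (t 0) 1, Pi.single (t 1) 1] else (0 : K)) =
        (if p < q then c ![Pi.single p 1, Pi.single q 1] j else 0) *
          eps ![p, q] ![Pi.single (t 0) 1, Pi.single (t 1) 1] := by
      intro p q
      rw [Finset.sum_eq_single j]
      · simp
      · intro b _ hb
        rw [if_neg hb.symm, mul_zero]
      · simp
    rw [Finset.sum_congr rfl (fun p _ => Finset.sum_congr rfl (fun q _ => hsum p q))]
    have heps : ∀ p q : Fin n, eps ![p, q] ![Pi.single (t 0) 1, Pi.single (t 1) 1] =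
        (if p = t 0 then (1 : K) else 0) * (if q = t 1 then 1 else 0) -
        (if q = t 0 then 1 else 0) * (if p = t 1 then 1 else 0) := by
      intro p q
      rw [eps_apply, Matrix.det_fin_two]
      simp only [Matrix.of_apply, Matrix.cons_val_zero, Matrix.cons_val_one, Pi.single_apply]
    simp only [heps]
    have hswap : c ![Pi.single (t 0) 1, Pi.single (t 1) 1] =
        - c ![Pi.single (t 1) 1, Pi.single (t 0) 1] := alt_swap c _ _ _
    rcases lt_or_gt_of_ne hne with h | h
    · rw [Finset.sum_eq_single (t 0)]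
      · rw [Finset.sum_eq_single (t 1)]
        · simp [h, hne]
        · intro q _ hq
          simp [hq, hne]
        · simp
      · intro p _ hp
        rw [Finset.sum_eq_zero]
        intro q _
        by_cases h1 : q = t 0
        · subst h1
          by_cases h2 : p = t 1
          · subst h2
            simp [not_lt.mpr h.le]
          · simp [hp, h2]
        · simp [hp, h1]
      · simp
    · rw [Finset.sum_eq_single (t 1)]
      · rw [Finset.sum_eq_single (t 0)]
        · simp [h, hne, hswap]
        · intro q _ hq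
          simp [hq, hne.symm]
        · simp
      · intro p _ hp
        rw [Finset.sum_eq_zero]
        intro q _
        by_cases h1 : p = t 0
        · subst h1
          by_cases h2 : q = t 1
          · subst h2
            simp [not_lt.mpr h.le]
          · simp [hp, h2]
        · simp [hp, h1]
      · simp
  rw [h]
  apply Submodule.sum_mem
  intro p _
  apply Submodule.sum_mem
  intro q _
  apply Submodule.sum_mem
  intro j _
  apply Submodule.smul_mem
  apply Submodule.subset_span
  exact ⟨(![p, q], j), rfl⟩

end ann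

end Pool.Agent.H17.Kz
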