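import Pool.Agent.H17.KzGrowth

/-!
# The core of the Mantel type bound

`V` is a vector space with operators `X p` (left multiplications by the generators of the
quadratic dual) and skew derivations `d p`.
-/

open Finset BigOperators

namespace Pool.Agent.H17.Kz

/-- Operators on the free module of rank one over the quadratic dual. -/
structure KDat (K : Type*) [Field K] (n m : ℕ) (c : Fin m → Fin n → Fin n → K)
    (V : Type*) [AddCommGroup V] [Module K V] where
  X : Fin n → V →ₗ[K] V
  d : Fin n → V →ₗ[K] V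
  sq : ∀ j v, ∑ p, ∑ q, c j p q • X p (X q v) = 0
  cl : ∀ k l v, d k (X l v) = (if k = l then v else 0) - X l (d k v)
  inj : ∀ f : Fin m → V, (∀ l, ∑ j, ∑ p, c j l p • X p (f j) = 0) → f = 0
  v0 : V
  v0ne : v0 ≠ 0
  dv0 : ∀ k, d k v0 = 0

variable {K : Type*} [Field K] {n m : ℕ} {c : Fin m → Fin n → Fin n → K}
  {V : Type*} [AddCommGroup V] [Module K V]

/-- The space dual to `Tor_2(R,K)_4`. -/
def DD (c : Fin m → Fin n → Fin n → K) : Submodule K (Fin m → Fin n → Fin n → K) where
  carrier := {φ | (∀ j p, φ j p p = 0) ∧ (∀ j p q, φ j p q = - φ j q p) ∧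
    ∀ l a b e, ∑ j, (c j a l * φ j b e - c j b l * φ j a e + c j e l * φ j a b) = 0}
  zero_mem' := by simp
  add_mem' := by
    rintro φ ψ ⟨h1, h2, h3⟩ ⟨h1', h2', h3'⟩
    refine ⟨fun j p => by simp [h1, h1'], fun j p q => ?_, fun l a b e => ?_⟩
    · simp only [Pi.add_apply]; rw [h2 j p q, h2' j p q]; ring
    · have h := congrArg₂ (· + ·) (h3 l a b e) (h3' l a b e)
      simp only [add_zero] at h
      rw [← h, ← Finset.sum_add_distrib]
      apply Finset.sum_congr rfl
      intro j _
      simp only [Pi.add_apply]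
      ring
  smul_mem' := by
    rintro t φ ⟨h1, h2, h3⟩
    refine ⟨fun j p => by simp [h1], fun j p q => ?_, fun l a b e => ?_⟩
    · simp only [Pi.smul_apply, smul_eq_mul]; rw [h2 j p q]; ring
    · have h := congrArg (t * ·) (h3 l a b e)
      simp only [mul_zero] at h
      rw [← h, Finset.mul_sum]
      apply Finset.sum_congr rfl
      intro j _
      simp only [Pi.smul_apply, smul_eq_mul]
      ring

namespace KDat

variable (S : KDat K n m c V)

/-- elements killed by all skew derivations -/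
def Nn : Submodule K V where
  carrier := {v | ∀ k, S.d k v = 0}
  zero_mem' := by simp
  add_mem' := by
    intro a b ha hb k
    rw [map_add, ha k, hb k, add_zero]
  smul_mem' := by
    intro t a ha k
    rw [map_smul, ha k, smul_zero]

theorem dXX (r p q : Fin n) (u : V) (hu : u ∈ S.Nn) :
    S.d r (S.X p (S.X q u)) = (if r = p then S.X q u else 0) - (if r = q then S.X p u else 0) := by
  rw [S.cl, S.cl, hu r, map_zero, sub_zero]
  split_ifs <;> simp

/-- symmetric combinations of `X p (X q u)` stay in the kernel of the derivations -/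
theorem sym_mem (t : Fin n → Fin n → V) (ht : ∀ p q, t p q = t q p) (hN : ∀ p q, t p q ∈ S.Nn) :
    ∑ p, ∑ q, S.X p (S.X q (t p q)) ∈ S.Nn := by
  intro r
  rw [map_sum]
  have h1 : ∀ p, S.d r (∑ q, S.X p (S.X q (t p q))) =
      (if r = p then ∑ q, S.X q (t p q) else 0) - S.X p (t p r) := by
    intro p
    rw [map_sum]
    rw [Finset.sum_congr rfl (fun q _ => S.dXX r p q (t p q) (hN p q))]
    rw [Finset.sum_sub_distrib]
    congr 1
    · split_ifs <;> simp
    · simp
  rw [Finset.sum_congr rfl (fun p _ => h1 p), Finset.sum_sub_distrib]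
  simp only [Finset.sum_ite_eq, Finset.mem_univ, if_true]
  rw [sub_eq_zero]
  apply Finset.sum_congr rfl
  intro q _
  rw [ht]

theorem sym_smul_mem (t : Fin n → Fin n → K) (ht : ∀ p q, t p q = t q p) (u : V) (hu : u ∈ S.Nn) :
    ∑ p, ∑ q, t p q • S.X p (S.X q u) ∈ S.Nn := by
  have h := S.sym_mem (fun p q => t p q • u) (fun p q => by simp only [ht p q])
    (fun p q => S.Nn.smul_mem _ hu)
  simpa only [map_smul] using h

/-- the lift of `φ j ∈ Λ²X` to the quadratic dual, acting on `u` -/
def Vop (φ : Fin m → Fin n → Fin n → K) (j : Fin m) (u : V) : V :=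
  ∑ p, ∑ q, (if p < q then φ j p q else 0) • S.X p (S.X q u)

theorem d_Vop (φ : Fin m → Fin n → Fin n → K) (h1 : ∀ j p, φ j p p = 0)
    (h2 : ∀ j p q, φ j p q = - φ j q p) (j : Fin m) (u : V) (hu : u ∈ S.Nn) (r : Fin n) :
    S.d r (S.Vop φ j u) = ∑ q, φ j r q • S.X q u := by
  unfold Vop
  rw [map_sum]
  have h3 : ∀ p, S.d r (∑ q, (if p < q then φ j p q else 0) • S.X p (S.X q u)) =
      (if r = p then ∑ q, (if p < q then φ j p q else 0) • S.X q u else 0)
        - (if p < r then φ j p r else 0) • S.X p u := by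
    intro p
    rw [map_sum]
    have h4 : ∀ q, S.d r ((if p < q then φ j p q else 0) • S.X p (S.X q u)) =
        (if r = p then (if p < q then φ j p q else 0) • S.X q u else 0)
        - (if r = q then (if p < q then φ j p q else 0) • S.X p u else 0) := by
      intro q
      rw [map_smul, S.dXX r p q u hu, smul_sub]
      congr 1 <;> · split_ifs <;> simp
    rw [Finset.sum_congr rfl (fun q _ => h4 q), Finset.sum_sub_distrib]
    congr 1
    · split_ifs <;> simp
    · simp
  rw [Finset.sum_congr rfl (fun p _ => h3 p), Finset.sum_sub_distrib]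
  simp only [Finset.sum_ite_eq, Finset.mem_univ, if_true]
  rw [← Finset.sum_sub_distrib]
  apply Finset.sum_congr rfl
  intro q _
  rw [← sub_smul]
  congr 1
  rcases lt_trichotomy r q with h | h | h
  · simp [h, not_lt.mpr h.le]
  · subst h; simp [h1]
  · simp only [h, not_lt.mpr h.le, if_true, if_false, zero_sub]
    rw [h2 j r q]

/-- `p_i u` -/
def pop (φ : Fin m → Fin n → Fin n → K) (i : Fin n) (u : V) : V :=
  ∑ j, ∑ l, c j i l • S.X l (S.Vop φ j u)

theorem sum_X_pop (φ : Fin m → Fin n → Fin n → K) (u : V) :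
    ∑ i, S.X i (S.pop φ i u) = 0 := by
  unfold pop
  simp only [map_sum, map_smul]
  rw [Finset.sum_comm]
  apply Finset.sum_eq_zero
  intro j _
  exact S.sq j (S.Vop φ j u)

/-- `a_{ik} u` as an explicit symmetric combination -/
def tt (c : Fin m → Fin n → Fin n → K) (φ : Fin m → Fin n → Fin n → K) (i k p q : Fin n) : K :=
  (∑ j, c j i k * (if p < q then φ j p q else 0)) - ∑ j, c j i p * φ j k q

theorem tt_symm (hc : ∀ j p q, c j p q = c j q p) {φ : Fin m → Fin n → Fin n → K}
    (hφ : φ ∈ DD c) (i k p q : Fin n) :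
    tt c φ i k p q = tt c φ i k q p := by
  obtain ⟨h1, h2, h3⟩ := hφ
  unfold tt
  rw [← Finset.sum_sub_distrib, ← Finset.sum_sub_distrib, ← sub_eq_zero, ← Finset.sum_sub_distrib]
  refine Eq.trans ?_ (h3 i k p q)
  apply Finset.sum_congr rfl
  intro j _
  rw [hc j k i, hc j p i, hc j q i]
  rcases lt_trichotomy p q with h | h | h
  · simp only [h, not_lt.mpr h.le, if_true, if_false]
    ring
  · subst h; simp only [lt_irrefl, if_false, h1]; ring
  · simp only [h, not_lt.mpr h.le, if_true, if_false]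
    rw [h2 j q p]
    ring

theorem d_pop {φ : Fin m → Fin n → Fin n → K}
    (hφ : φ ∈ DD c) (i k : Fin n) (u : V) (hu : u ∈ S.Nn) :
    S.d k (S.pop φ i u) = ∑ p, ∑ q, tt c φ i k p q • S.X p (S.X q u) := by
  obtain ⟨h1, h2, h3⟩ := hφ
  unfold pop
  have hA : S.d k (∑ j, ∑ l, c j i l • S.X l (S.Vop φ j u)) =
      ∑ j, (c j i k • S.Vop φ j u - ∑ l, c j i l • S.X l (∑ q, φ j k q • S.X q u)) := by
    rw [map_sum]
    apply Finset.sum_congr rfl
    intro j _
    rw [map_sum]
    have : ∀ l, S.d k (c j i l • S.X l (S.Vop φ j u)) =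
        (if k = l then c j i l • S.Vop φ j u else 0) - c j i l • S.X l (∑ q, φ j k q • S.X q u) := by
      intro l
      rw [map_smul, S.cl, S.d_Vop φ h1 h2 j u hu k, smul_sub]
      congr 1
      split_ifs <;> simp
    rw [Finset.sum_congr rfl (fun l _ => this l), Finset.sum_sub_distrib]
    simp
  rw [hA]
  unfold tt Vop
  simp only [map_sum, map_smul, Finset.smul_sum, sub_smul, Finset.sum_smul, Finset.sum_sub_distrib,
    smul_smul]
  congr 1
  · rw [Finset.sum_comm]
    apply Finset.sum_congr rfl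
    intro p _
    rw [Finset.sum_comm]
  · rw [Finset.sum_comm]
    apply Finset.sum_congr rfl
    intro p _
    rw [Finset.sum_comm]

theorem d_pop_mem (hc : ∀ j p q, c j p q = c j q p) {φ : Fin m → Fin n → Fin n → K}
    (hφ : φ ∈ DD c) (i k : Fin n) (u : V) (hu : u ∈ S.Nn) :
    S.d k (S.pop φ i u) ∈ S.Nn := by
  rw [S.d_pop hφ i k u hu]
  exact S.sym_smul_mem _ (tt_symm hc hφ i k) u hu

theorem pop_eq (φ : Fin m → Fin n → Fin n → K) (k : Fin n) (u : V) :
    S.pop φ k u = ∑ i, S.X i (S.d k (S.pop φ i u)) := by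
  have h := congrArg (S.d k) (S.sum_X_pop φ u)
  rw [map_zero, map_sum] at h
  simp only [S.cl, Finset.sum_sub_distrib, Finset.sum_ite_eq, Finset.mem_univ, if_true] at h
  exact sub_eq_zero.mp h

theorem a_symm (hc : ∀ j p q, c j p q = c j q p) {φ : Fin m → Fin n → Fin n → K}
    (hφ : φ ∈ DD c) (k l : Fin n) (u : V) (hu : u ∈ S.Nn) :
    S.d l (S.pop φ k u) = S.d k (S.pop φ l u) := by
  conv_lhs => rw [S.pop_eq φ k u]
  rw [map_sum]
  simp only [S.cl]
  rw [Finset.sum_sub_distrib]
  have h1 : ∀ i, S.X i (S.d l (S.d k (S.pop φ i u))) = 0 := by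
    intro i
    rw [S.d_pop_mem hc hφ i k u hu l, map_zero]
  simp [h1]

end KDat

end Pool.Agent.H17.Kz
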