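import Mathlib

/-!
# Resolutions by matrices
-/

open MvPolynomial

namespace Pool.Agent.H17.Kz

/-- `(b, d)` is a free resolution `… → T^{b 2} → T^{b 1} → T^{b 0} = T → T/J → 0` of the cyclic
module `T/J` over the commutative ring `T`, all of whose matrix entries lie in the set `E`. The
map `T^{b (k+1)} → T^{b k}` is the multiplication by the matrix `d k`. -/
structure IsRes (T : Type*) [CommRing T] (J : Ideal T) (E : Set T) (b : ℕ → ℕ)
    (d : ∀ k, Matrix (Fin (b k)) (Fin (b (k + 1))) T) : Prop where
  rank_zero : b 0 = 1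
  entries : ∀ k i j, d k i j ∈ E
  range_zero : ∀ v : Fin (b 0) → T, (∃ w, (d 0).mulVec w = v) ↔ ∀ i, v i ∈ J
  exact : ∀ k (v : Fin (b (k + 1)) → T), (d k).mulVec v = 0 ↔ ∃ w, (d (k + 1)).mulVec w = v

/-- `R = S/I` is a Koszul algebra: the residue field `K = R/R₊` has a free resolution over `R`
whose matrices have entries in `R₁` (the `K`-span of the classes of the variables), that is, a
linear minimal graded free resolution. -/
def IsKoszul {K : Type*} [Field K] {n : ℕ} (I : Ideal (MvPolynomial (Fin n) K)) : Prop :=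
  ∃ (b : ℕ → ℕ) (d : ∀ k, Matrix (Fin (b k)) (Fin (b (k + 1))) (MvPolynomial (Fin n) K ⧸ I)),
    IsRes (MvPolynomial (Fin n) K ⧸ I) ((idealOfVars (Fin n) K).map (Ideal.Quotient.mk I))
      (Submodule.span K (Set.range fun l => Ideal.Quotient.mk I (X l)) : Set _) b d

end Pool.Agent.H17.Kz
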