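import Pool.Agent.H17.KzBetti

/-!
# Exactness of the Koszul complex of a polynomial ring
-/

open Finset BigOperators

namespace Pool.Agent.H17.Kz

section wedge
variable {K : Type*} [Field K] {n : ℕ} {S : Type*} [CommRing S] [Algebra K S]
  {M : Type*} [AddCommGroup M] [Module K M] [Module S M] [IsScalarTower K S M]

/-- contraction with the `k`-th basis vector -/
noncomputable def io {i : ℕ} (k : Fin n) (c : KC K n M (i + 1)) : KC K n M i :=
  c.curryLeft (Pi.single k 1)

/-- exterior multiplication with the `k`-th coordinate form -/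
noncomputable def we {i : ℕ} (k : Fin n) (c : KC K n M i) : KC K n M (i + 1) :=
  AlternatingMap.alternatizeUncurryFin ((LinearMap.proj k : (Fin n → K) →ₗ[K] K).smulRight c)

theorem we_apply {i : ℕ} (k : Fin n) (c : KC K n M i) (v : Fin (i + 1) → Fin n → K) :
    we k c v = ∑ a : Fin (i + 1), (-1 : ℤ) ^ (a : ℕ) • (v a k • c (Fin.removeNth a v)) := by
  rw [we, AlternatingMap.alternatizeUncurryFin_apply]
  rfl

theorem io_apply {i : ℕ} (k : Fin n) (c : KC K n M (i + 1)) (v : Fin i → Fin n → K) :
    io k c v = c (Matrix.vecCons (Pi.single k 1) v) := rfl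

theorem io_add {i : ℕ} (k : Fin n) (c c' : KC K n M (i + 1)) : io k (c + c') = io k c + io k c' := rfl
theorem io_sub {i : ℕ} (k : Fin n) (c c' : KC K n M (i + 1)) : io k (c - c') = io k c - io k c' := by
  ext v; rfl
theorem io_smul {i : ℕ} (k : Fin n) (a : S) (c : KC K n M (i + 1)) : io k (a • c) = a • io k c := by
  ext v; rfl
theorem io_io {i : ℕ} (k : Fin n) (c : KC K n M (i + 2)) : io k (io k c) = 0 :=
  c.curryLeft_same (Pi.single k 1)
theorem io_comm {i : ℕ} (k l : Fin n) (c : KC K n M (i + 2)) : io k (io l c) = - io l (io k c) := by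
  ext v
  rw [AlternatingMap.neg_apply, io_apply, io_apply, io_apply, io_apply]
  exact alt_swap c _ _ v

theorem we_add {i : ℕ} (k : Fin n) (c c' : KC K n M i) : we k (c + c') = we k c + we k c' := by
  ext v
  rw [AlternatingMap.add_apply, we_apply, we_apply, we_apply, ← Finset.sum_add_distrib]
  apply Finset.sum_congr rfl; intro a _
  rw [AlternatingMap.add_apply, smul_add, smul_add]
theorem we_smul {i : ℕ} (k : Fin n) (a : S) (c : KC K n M i) : we k (a • c) = a • we k c := by
  ext v
  rw [AlternatingMap.smul_apply, we_apply, we_apply, Finset.smul_sum]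
  apply Finset.sum_congr rfl; intro b _
  rw [AlternatingMap.smul_apply, smul_comm (v b k) a, smul_comm a ((-1 : ℤ) ^ (b : ℕ))]
theorem we_zero {i : ℕ} (k : Fin n) : we k (0 : KC K n M i) = 0 := by
  ext v
  rw [we_apply]
  simp
theorem we_sum {i : ℕ} {ι : Type*} (s : Finset ι) (k : Fin n) (f : ι → KC K n M i) :
    we k (∑ x ∈ s, f x) = ∑ x ∈ s, we k (f x) := by
  classical
  induction s using Finset.induction_on with
  | empty => simp [we_zero]
  | insert a s ha ih => rw [Finset.sum_insert ha, Finset.sum_insert ha, we_add, ih]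

theorem io_we {i : ℕ} (l k : Fin n) (c : KC K n M (i + 1)) :
    io l (we k c) = (if l = k then c else 0) - we k (io l c) := by
  ext v
  rw [io_apply, we_apply, Fin.sum_univ_succ]
  rw [AlternatingMap.sub_apply, sub_eq_add_neg, we_apply, ← Finset.sum_neg_distrib]
  congr 1
  · simp only [Fin.val_zero, pow_zero, one_smul, Matrix.cons_val_zero]
    by_cases h : l = k
    · subst h
      rw [if_pos rfl, Pi.single_eq_same, one_smul]
      congr 1
    · rw [if_neg h, Pi.single_eq_of_ne (Ne.symm h), zero_smul]
      rfl
  · apply Finset.sum_congr rfl; intro a _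
    rw [io_apply]
    have h1 : Fin.removeNth a.succ (Matrix.vecCons (Pi.single l (1 : K)) v) =
        Matrix.vecCons (Pi.single l 1) (Fin.removeNth a v) := by
      funext x
      refine Fin.cases ?_ (fun x => ?_) x
      · simp [Fin.removeNth]
      · simp [Fin.removeNth, Fin.succ_succAbove_succ]
    rw [h1]
    simp only [Fin.val_succ, Matrix.cons_val_succ, pow_succ, mul_neg, mul_one, neg_smul]

theorem io_we0 (l k : Fin n) (c : KC K n M 0) :
    io l (we k c) = (if l = k then c else 0) := by
  ext v
  rw [io_apply, we_apply, Fin.sum_univ_succ]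
  simp only [Fin.val_zero, pow_zero, one_smul, Matrix.cons_val_zero, Finset.univ_eq_empty,
    Finset.sum_empty, add_zero]
  by_cases h : l = k
  · subst h
    rw [if_pos rfl, Pi.single_eq_same, one_smul]
    congr 1
  · rw [if_neg h, Pi.single_eq_of_ne (Ne.symm h), zero_smul]
    rfl

theorem kdiff_io (ξ : Fin n → S) (i : ℕ) (c : KC K n M (i + 1)) :
    kdiff K ξ M i c = ∑ l, ξ l • io l c := rfl

theorem kdiff_we (ξ : Fin n → S) (i : ℕ) (k : Fin n) (c : KC K n M (i + 1)) :
    kdiff K ξ M (i + 1) (we k c) = ξ k • c - we k (kdiff K ξ M i c) := by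
  rw [kdiff_io, kdiff_io, we_sum]
  have h : ∀ l, ξ l • io l (we k c) = (if l = k then ξ k • c else 0) - we k (ξ l • io l c) := by
    intro l
    rw [io_we, we_smul, smul_sub]
    congr 1
    split_ifs with h
    · rw [h]
    · rw [smul_zero]
  rw [Finset.sum_congr rfl (fun l _ => h l), Finset.sum_sub_distrib]
  simp

end wedge

section exact
variable {K : Type*} [Field K] {n : ℕ} {S : Type*} [CommRing S] [Algebra K S]
  {M : Type*} [AddCommGroup M] [Module K M] [Module S M] [IsScalarTower K S M]

/-- division operators -/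
structure DivOp (K : Type*) [Field K] {n : ℕ} {S : Type*} [CommRing S] [Algebra K S]
    (ξ : Fin n → S) (M : Type*) [AddCommGroup M] [Module K M] [Module S M] where
  q : Fin n → M →ₗ[K] M
  same : ∀ k f, q k (ξ k • f) = f
  diff : ∀ k l f, l ≠ k → q k (ξ l • f) = ξ l • q k f

theorem comp_smul_same {ξ : Fin n → S} (Q : DivOp K ξ M) {i : ℕ} (k : Fin n) (c : KC K n M i) :
    (Q.q k).compAlternatingMap (ξ k • c) = c := by
  ext v
  rw [LinearMap.compAlternatingMap_apply, AlternatingMap.smul_apply, Q.same]

theorem comp_smul_diff {ξ : Fin n → S} (Q : DivOp K ξ M) {i : ℕ} (k l : Fin n) (h : l ≠ k)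
    (c : KC K n M i) :
    (Q.q k).compAlternatingMap (ξ l • c) = ξ l • (Q.q k).compAlternatingMap c := by
  ext v
  rw [LinearMap.compAlternatingMap_apply, AlternatingMap.smul_apply, Q.diff k l _ h]
  rfl

theorem io_comp (g : M →ₗ[K] M) {i : ℕ} (k : Fin n) (c : KC K n M (i + 1)) :
    io k (g.compAlternatingMap c) = g.compAlternatingMap (io k c) := by
  ext v; rfl

theorem comp_sum {ι : Type*} (s : Finset ι) (g : M →ₗ[K] M) {i : ℕ} (f : ι → KC K n M i) :
    g.compAlternatingMap (∑ x ∈ s, f x) = ∑ x ∈ s, g.compAlternatingMap (f x) := by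
  ext v
  rw [LinearMap.compAlternatingMap_apply, alt_sum_apply, alt_sum_apply, map_sum]
  rfl

/-- homotopy formula -/
theorem homotopy {ξ : Fin n → S} (Q : DivOp K ξ M) {i : ℕ} (k : Fin n) (c : KC K n M (i + 1))
    (hc : kdiff K ξ M i c = 0) :
    c - kdiff K ξ M (i + 1) (we k ((Q.q k).compAlternatingMap c)) =
      (c - ξ k • (Q.q k).compAlternatingMap c) -
        we k (io k (c - ξ k • (Q.q k).compAlternatingMap c)) := by
  have h1 : (Q.q k).compAlternatingMap (kdiff K ξ M i c) =
      kdiff K ξ M i ((Q.q k).compAlternatingMap c) + (io k c - ξ k • (Q.q k).compAlternatingMap (io k c)) := by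
    rw [kdiff_io, kdiff_io, comp_sum]
    have h2 : ∀ l, (Q.q k).compAlternatingMap (ξ l • io l c) =
        ξ l • io l ((Q.q k).compAlternatingMap c) +
          (if l = k then (io k c - ξ k • (Q.q k).compAlternatingMap (io k c)) else 0) := by
      intro l
      by_cases h : l = k
      · subst h
        rw [comp_smul_same, if_pos rfl, io_comp]
        abel
      · rw [comp_smul_diff Q k l h, if_neg h, io_comp, add_zero]
    rw [Finset.sum_congr rfl (fun l _ => h2 l), Finset.sum_add_distrib]
    simp
  rw [hc] at h1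
  have h3 : (Q.q k).compAlternatingMap (0 : KC K n M i) = 0 := by
    ext v
    rw [LinearMap.compAlternatingMap_apply]
    simp
  rw [h3] at h1
  rw [kdiff_we]
  have h4 : io k (c - ξ k • (Q.q k).compAlternatingMap c) =
      io k c - ξ k • (Q.q k).compAlternatingMap (io k c) := by
    rw [io_sub, io_smul, io_comp]
  have h5 : kdiff K ξ M i ((Q.q k).compAlternatingMap c) =
      - io k (c - ξ k • (Q.q k).compAlternatingMap c) := by
    rw [h4]
    exact eq_neg_of_add_eq_zero_left h1.symm
  have h6 : we k (kdiff K ξ M i ((Q.q k).compAlternatingMap c)) =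
      - we k (io k (c - ξ k • (Q.q k).compAlternatingMap c)) := by
    rw [h5]
    have h7 : ∀ x : KC K n M i, we k (-x) = - we k x := by
      intro x
      have h8 : we k (-x) + we k x = 0 := by
        rw [← we_add, neg_add_cancel, we_zero]
      exact eq_neg_of_add_eq_zero_left h8
    rw [h7]
  rw [h6]
  abel

theorem kill {ξ : Fin n → S} (Q : DivOp K ξ M) {i : ℕ} (c : KC K n M (i + 1))
    (hc : kdiff K ξ M i c = 0) (T : Finset (Fin n)) :
    ∃ b, ∀ k ∈ T, io k (c - kdiff K ξ M (i + 1) b) = 0 := by
  classical
  induction T using Finset.induction_on with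
  | empty => exact ⟨0, by simp⟩
  | insert k T hk ih =>
    obtain ⟨b, hb⟩ := ih
    set c' := c - kdiff K ξ M (i + 1) b with hc'
    have hcc : kdiff K ξ M i c' = 0 := by
      rw [hc', map_sub, hc, kdiff_kdiff, sub_zero]
    refine ⟨b + we k ((Q.q k).compAlternatingMap c'), ?_⟩
    have h1 : c - kdiff K ξ M (i + 1) (b + we k ((Q.q k).compAlternatingMap c')) =
        c' - kdiff K ξ M (i + 1) (we k ((Q.q k).compAlternatingMap c')) := by
      rw [map_add, hc']; abel
    rw [h1, homotopy Q k c' hcc]
    set w := c' - ξ k • (Q.q k).compAlternatingMap c' with hw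
    intro l hl
    rw [io_sub]
    rw [Finset.mem_insert] at hl
    cases i with
    | zero =>
      rw [io_we0]
      rcases hl with rfl | hl
      · rw [if_pos rfl, sub_self]
      · have hne : l ≠ k := fun h => hk (h ▸ hl)
        rw [if_neg hne, sub_zero, hw, io_sub, io_smul, io_comp, hb l hl]
        have h3 : (Q.q k).compAlternatingMap (0 : KC K n M 0) = 0 := by
          ext v
          rw [LinearMap.compAlternatingMap_apply]
          simp
        rw [h3, smul_zero, sub_zero]
    | succ i =>
      rw [io_we]
      rcases hl with rfl | hl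
      · rw [if_pos rfl, io_io, we_zero, sub_zero, sub_self]
      · have hne : l ≠ k := fun h => hk (h ▸ hl)
        rw [if_neg hne, io_comm l k, zero_sub]
        have h3 : (Q.q k).compAlternatingMap (0 : KC K n M (i + 1)) = 0 := by
          ext v
          rw [LinearMap.compAlternatingMap_apply]
          simp
        have h4 : io l w = 0 := by
          rw [hw, io_sub, io_smul, io_comp, hb l hl, h3, smul_zero, sub_zero]
        have h5 : io k (io l w) = 0 := by
          rw [h4]; ext v; rfl
        have h6 : we k (- io k (io l w)) = 0 := by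
          rw [h5, neg_zero, we_zero]
        rw [h6, h4, neg_zero, sub_zero]

/-- The Koszul complex is exact in positive degrees. -/
theorem koszul_exact {ξ : Fin n → S} (Q : DivOp K ξ M) {i : ℕ} (c : KC K n M (i + 1))
    (hc : kdiff K ξ M i c = 0) : ∃ b, kdiff K ξ M (i + 1) b = c := by
  obtain ⟨b, hb⟩ := kill Q c hc Finset.univ
  refine ⟨b, ?_⟩
  symm
  rw [← sub_eq_zero]
  apply Module.Basis.ext_alternating (Pi.basisFun K (Fin n))
  intro t _
  have h := congrArg (fun f => f (fun a => Pi.basisFun K (Fin n) (t (Fin.succ a)))) (hb (t 0) (Finset.mem_univ _))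
  simp only [AlternatingMap.zero_apply] at h
  rw [AlternatingMap.zero_apply, ← h, io_apply]
  congr 1
  funext a
  refine Fin.cases ?_ (fun a => ?_) a
  · simp
  · simp

end exact

section poly
open MvPolynomial

variable {K : Type*} [Field K] {n : ℕ}

/-- division of polynomials by a variable -/
noncomputable def divX (k : Fin n) : MvPolynomial (Fin n) K →ₗ[K] MvPolynomial (Fin n) K where
  toFun f := MvPolynomial.divMonomial f (Finsupp.single k 1)
  map_add' f g := by simp [MvPolynomial.add_divMonomial]
  map_smul' a f := by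
    ext d
    simp [MvPolynomial.coeff_divMonomial, MvPolynomial.smul_eq_C_mul, MvPolynomial.coeff_C_mul]

theorem divX_coeff (k : Fin n) (f : MvPolynomial (Fin n) K) (d : Fin n →₀ ℕ) :
    coeff d (divX k f) = coeff (Finsupp.single k 1 + d) f := by
  show coeff d (MvPolynomial.divMonomial f (Finsupp.single k 1)) = _
  rw [MvPolynomial.coeff_divMonomial]

theorem divX_same (k : Fin n) (f : MvPolynomial (Fin n) K) : divX k (X k * f) = f := by
  ext d
  rw [divX_coeff, coeff_X_mul']
  simp

theorem divX_diff (k l : Fin n) (h : l ≠ k) (f : MvPolynomial (Fin n) K) :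
    divX k (X l * f) = X l * divX k f := by
  ext d
  rw [divX_coeff, coeff_X_mul', coeff_X_mul']
  have h1 : (l ∈ (Finsupp.single k 1 + d).support) ↔ l ∈ d.support := by
    simp [h.symm]
  by_cases hl : l ∈ d.support
  · rw [if_pos (h1.mpr hl), if_pos hl, divX_coeff]
    congr 1
    ext x
    simp only [Finsupp.coe_tsub, Finsupp.coe_add, Pi.sub_apply, Pi.add_apply, Finsupp.single_apply]
    have hl2 : 1 ≤ d l := Nat.one_le_iff_ne_zero.mpr (by simpa using hl)
    by_cases h2 : l = x
    · subst h2
      simp only [if_neg h.symm, if_true]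
      omega
    · simp only [if_neg h2]
      omega
  · rw [if_neg (fun h2 => hl (h1.mp h2)), if_neg hl]

/-- free modules over the polynomial ring have division operators -/
noncomputable def divFree (r : ℕ) : DivOp K (X : Fin n → MvPolynomial (Fin n) K)
    (Fin r → MvPolynomial (Fin n) K) where
  q k := (divX k).compLeft (Fin r)
  same k f := by
    funext j
    exact divX_same k (f j)
  diff k l f h := by
    funext j
    exact divX_diff k l h (f j)

end poly

end Pool.Agent.H17.Kz
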