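import Mathlib

/-!
# A growth lemma
If `e * u k + u (k+2) ≤ g * u (k+1)` for all `k` and `u 0 > 0`, then `4 e ≤ g^2`.
-/

namespace Pool.Agent.H17.Kz

theorem growth (e g : ℕ) (u : ℕ → ℕ) (h0 : 0 < u 0)
    (h : ∀ k, e * u k + u (k + 2) ≤ g * u (k + 1)) : 4 * e ≤ g ^ 2 := by
  by_contra hlt
  push Not at hlt
  have he : 0 < e := by
    rcases Nat.eq_zero_or_pos e with h1 | h1
    · subst h1
      simp at hlt
    · exact h1
  have hpos : ∀ k, 0 < u k := by
    intro k
    induction k with
    | zero => exact h0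
    | succ k ih =>
      rcases Nat.eq_zero_or_pos (u (k + 1)) with h1 | h1
      · have h2 := h k
        rw [h1, mul_zero] at h2
        have h3 : 0 < e * u k := Nat.mul_pos he ih
        omega
      · exact h1
  have hg : 0 < g := by
    rcases Nat.eq_zero_or_pos g with h1 | h1
    · have h2 := h 0
      rw [h1, zero_mul] at h2
      have h3 : 0 < e * u 0 := Nat.mul_pos he h0
      omega
    · exact h1
  let r : ℕ → ℝ := fun k => (u (k + 1) : ℝ) / (u k : ℝ)
  have hr0 : ∀ k, 0 < r k := fun k => div_pos (by exact_mod_cast hpos (k + 1)) (by exact_mod_cast hpos k)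
  have hstep : ∀ k, r (k + 1) ≤ g - e / r k := by
    intro k
    have h1 : (0 : ℝ) < u k := by exact_mod_cast hpos k
    have h2 : (0 : ℝ) < u (k + 1) := by exact_mod_cast hpos (k + 1)
    have h3 : (e : ℝ) * u k + u (k + 2) ≤ g * u (k + 1) := by exact_mod_cast h k
    have h4 : (e : ℝ) / r k = e * u k / u (k + 1) := by
      simp only [r]
      field_simp
    rw [h4]
    show (u (k + 1 + 1) : ℝ) / (u (k + 1) : ℝ) ≤ _
    rw [div_le_iff₀ h2]
    have h5 : ((g : ℝ) - e * u k / u (k + 1)) * u (k + 1) = g * u (k + 1) - e * u k := by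
      field_simp
    rw [h5]
    have h6 : (u (k + 1 + 1) : ℝ) = u (k + 2) := rfl
    rw [h6]
    linarith
  have hgR : (0 : ℝ) < g := by exact_mod_cast hg
  have heR : (0 : ℝ) < e := by exact_mod_cast he
  have hrg : ∀ k, r (k + 1) ≤ g := by
    intro k
    have h1 := hstep k
    have h2 : 0 < (e : ℝ) / r k := div_pos heR (hr0 k)
    linarith
  set η : ℝ := e - g ^ 2 / 4 with hη
  have hηpos : 0 < η := by
    have h1 : (g : ℝ) ^ 2 < 4 * e := by exact_mod_cast hlt
    rw [hη]; linarith
  have hdec : ∀ k, r (k + 2) ≤ r (k + 1) - η / g := by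
    intro k
    have h1 := hstep (k + 1)
    have h2 := hr0 (k + 1)
    have h3 := hrg k
    have h4 : η / g ≤ η / r (k + 1) := by
      apply div_le_div_of_nonneg_left hηpos.le h2 h3
    have h5 : (g : ℝ) - e / r (k + 1) ≤ r (k + 1) - η / r (k + 1) := by
      rw [sub_le_sub_iff, ← sub_le_iff_le_add]
      have h6 : (g : ℝ) + η / r (k + 1) - e / r (k + 1) = g - (g ^ 2 / 4) / r (k + 1) := by
        rw [hη]; ring
      rw [h6]
      have h7 : 0 ≤ (r (k + 1) - g / 2) ^ 2 / r (k + 1) := div_nonneg (sq_nonneg _) h2.le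
      have h8 : (r (k + 1) - g / 2) ^ 2 / r (k + 1) = r (k + 1) - g + (g ^ 2 / 4) / r (k + 1) := by
        field_simp
        ring
      rw [h8] at h7
      linarith
    linarith
  have hlin : ∀ k : ℕ, r (k + 1) ≤ g - k * (η / g) := by
    intro k
    induction k with
    | zero => simpa using hrg 0
    | succ k ih =>
      have h1 := hdec k
      push_cast
      linarith
  obtain ⟨N, hN⟩ := exists_nat_gt (g / (η / g))
  have hηg : 0 < η / g := div_pos hηpos hgR
  have h1 := hlin N
  have h2 := hr0 (N + 1)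
  rw [div_lt_iff₀ hηg] at hN
  linarith

end Pool.Agent.H17.Kz
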