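import Pool.Agent.H17.KzRing

/-!
# The Koszul complex and its homology
-/

open Finset BigOperators

namespace Pool.Agent.H17.Kz

/-- The term in degree `i` of the Koszul complex on `n` elements with coefficients in `M`:
alternating maps in `i` vectors of `K^n`, that is `Λ^i(K^n)^* ⊗ M`. -/
abbrev KC (K : Type*) [Field K] (n : ℕ) (M : Type*) [AddCommGroup M] [Module K M] (i : ℕ) :=
  (Fin n → K) [⋀^Fin i]→ₗ[K] M

section general
variable (K : Type*) [Field K] {n : ℕ} {S : Type*} [CommRing S] [Algebra K S]

/-- The Koszul differential: contraction with `ξ = ∑ e_k ⊗ ξ_k`. -/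
noncomputable def kdiff (ξ : Fin n → S) (M : Type*) [AddCommGroup M] [Module K M] [Module S M]
    [IsScalarTower K S M] (i : ℕ) : KC K n M (i + 1) →ₗ[K] KC K n M i where
  toFun c := ∑ k, ξ k • c.curryLeft (Pi.single k 1)
  map_add' c c' := by
    simp only [AlternatingMap.curryLeft_add, LinearMap.add_apply, smul_add, Finset.sum_add_distrib]
  map_smul' a c := by
    simp only [AlternatingMap.curryLeft_smul, LinearMap.smul_apply, RingHom.id_apply,
      Finset.smul_sum]
    apply Finset.sum_congr rfl; intro k _
    rw [smul_comm]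

/-- The dimension of the `i`-th Koszul homology. -/
noncomputable def hdim (ξ : Fin n → S) (M : Type*) [AddCommGroup M] [Module K M] [Module S M]
    [IsScalarTower K S M] : ℕ → ℕ
  | 0 => Module.finrank K (KC K n M 0 ⧸ LinearMap.range (kdiff K ξ M 0))
  | i + 1 => Module.finrank K (LinearMap.ker (kdiff K ξ M i) ⧸
      (LinearMap.range (kdiff K ξ M (i + 1))).submoduleOf (LinearMap.ker (kdiff K ξ M i)))

variable {K} {M : Type*} [AddCommGroup M] [Module K M] [Module S M] [IsScalarTower K S M]

theorem kdiff_apply (ξ : Fin n → S) (i : ℕ) (c : KC K n M (i + 1)) (v : Fin i → Fin n → K) :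
    kdiff K ξ M i c v = ∑ k, ξ k • c (Matrix.vecCons (Pi.single k 1) v) := by
  have h : kdiff K ξ M i c = ∑ k, ξ k • c.curryLeft (Pi.single k 1) := rfl
  rw [h]
  have h2 : ∀ (s : Finset (Fin n)) (f : Fin n → KC K n M i), (∑ k ∈ s, f k) v = ∑ k ∈ s, f k v := by
    intro s f
    induction s using Finset.induction_on with
    | empty => simp
    | insert a s ha ih => rw [Finset.sum_insert ha, Finset.sum_insert ha, AlternatingMap.add_apply, ih]
  rw [h2]
  rfl

theorem alt_swap {i : ℕ} (c : KC K n M (i + 2)) (x y : Fin n → K) (v : Fin i → Fin n → K) :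
    c (Matrix.vecCons x (Matrix.vecCons y v)) = - c (Matrix.vecCons y (Matrix.vecCons x v)) := by
  have h := c.curryLeft_same (x + y)
  have h1 := congrArg (fun f => f v) h
  simp only [map_add, LinearMap.add_apply, AlternatingMap.curryLeft_add,
    AlternatingMap.curryLeft_same, AlternatingMap.add_apply, AlternatingMap.zero_apply, zero_add,
    add_zero, AlternatingMap.curryLeft_apply_apply] at h1
  exact (eq_neg_of_add_eq_zero_right h1)

theorem kdiff_kdiff (ξ : Fin n → S) (i : ℕ) (c : KC K n M (i + 2)) :
    kdiff K ξ M i (kdiff K ξ M (i + 1) c) = 0 := by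
  ext v
  rw [kdiff_apply]
  simp only [kdiff_apply, Finset.smul_sum, AlternatingMap.zero_apply]
  let f : Fin n → Fin n → M := fun k l =>
    ξ k • ξ l • c (Matrix.vecCons (Pi.single l 1) (Matrix.vecCons (Pi.single k 1) v))
  show ∑ k, ∑ l, f k l = 0
  have hanti : ∀ k l, f k l = - f l k := by
    intro k l
    simp only [f]
    rw [alt_swap c, smul_neg, smul_neg, smul_comm]
  have hdiag : ∀ k, f k k = 0 := by
    intro k
    have h1 := congrArg (fun g => g v) (c.curryLeft_same (Pi.single k 1))
    simp only [AlternatingMap.zero_apply, AlternatingMap.curryLeft_apply_apply] at h1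
    simp only [f, h1, smul_zero]
  have h2 : ∑ k, ∑ l, f k l = ∑ x ∈ (Finset.univ : Finset (Fin n × Fin n)), f x.1 x.2 := by
    rw [← Finset.univ_product_univ, Finset.sum_product]
  rw [h2]
  apply Finset.sum_involution (fun x _ => (x.2, x.1))
  · intro x _
    rw [hanti x.1 x.2]; exact neg_add_cancel _
  · intro x _ hx hx2
    apply hx
    have h3 : x.2 = x.1 := congrArg Prod.fst hx2
    rw [h3]; exact hdiag _
  · intro x _; exact Finset.mem_univ _
  · intro x _; rfl

theorem finrank_KC (i : ℕ) [FiniteDimensional K M] :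
    Module.finrank K (KC K n M i) = n.choose i * Module.finrank K M := by
  rw [LinearEquiv.finrank_eq (exteriorPower.alternatingMapLinearEquiv (R := K) (M := Fin n → K)
    (N := M) (n := i)), Module.finrank_linearMap, exteriorPower.finrank_eq]
  simp

instance KC_fin (i : ℕ) [FiniteDimensional K M] : FiniteDimensional K (KC K n M i) :=
  Module.Finite.equiv (exteriorPower.alternatingMapLinearEquiv (R := K) (M := Fin n → K)
    (N := M) (n := i)).symm

theorem range_le_ker (ξ : Fin n → S) (i : ℕ) :
    LinearMap.range (kdiff K ξ M (i + 1)) ≤ LinearMap.ker (kdiff K ξ M i) := by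
  rintro _ ⟨c, rfl⟩
  exact kdiff_kdiff ξ i c

/-- dimension count for the homology -/
theorem hdim_succ (ξ : Fin n → S) (i : ℕ) [FiniteDimensional K M] :
    hdim K ξ M (i + 1) + Module.finrank K (LinearMap.range (kdiff K ξ M (i + 1))) +
      Module.finrank K (LinearMap.range (kdiff K ξ M i)) =
      n.choose (i + 1) * Module.finrank K M := by
  have h1 := LinearMap.finrank_range_add_finrank_ker (kdiff K ξ M i)
  rw [finrank_KC] at h1
  have h2 := Submodule.finrank_quotient_add_finrank
    ((LinearMap.range (kdiff K ξ M (i + 1))).submoduleOf (LinearMap.ker (kdiff K ξ M i)))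
  have h3 := LinearEquiv.finrank_eq (Submodule.submoduleOfEquivOfLe
    (range_le_ker (K := K) (M := M) ξ i))
  rw [h3] at h2
  show Module.finrank K (LinearMap.ker (kdiff K ξ M i) ⧸
      (LinearMap.range (kdiff K ξ M (i + 1))).submoduleOf (LinearMap.ker (kdiff K ξ M i))) + _ + _ = _
  omega

end general

end Pool.Agent.H17.Kz
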