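import Pool.Agent.H17.KzShift

/-!
# The ranks of a minimal free resolution are the dimensions of the Koszul homology
-/

open MvPolynomial Finset BigOperators

namespace Pool.Agent.H17.Kz

variable {K : Type*} [Field K] {n : ℕ}

theorem cc_iff (f : MvPolynomial (Fin n) K) :
    coeff 0 f = 0 ↔ f ∈ idealOfVars (Fin n) K := by
  have h := mem_pow_idealOfVars_iff' (σ := Fin n) (R := K) 1 f
  rw [pow_one] at h
  rw [h]
  constructor
  · intro h0 x hx
    have : x = 0 := by
      rw [← Finsupp.degree_eq_zero_iff]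
      omega
    rw [this]; exact h0
  · intro h0
    exact h0 0 (by simp)

theorem mem_vars_iff (f : MvPolynomial (Fin n) K) :
    f ∈ idealOfVars (Fin n) K ↔ ∃ b : Fin n → MvPolynomial (Fin n) K, f = ∑ k, X k * b k := by
  rw [idealOfVars, Ideal.mem_span_range_iff_exists_fun]
  constructor
  · rintro ⟨c, hc⟩
    exact ⟨c, by rw [← hc]; exact Finset.sum_congr rfl (fun k _ => mul_comm _ _)⟩
  · rintro ⟨c, hc⟩
    exact ⟨c, by rw [hc]; exact Finset.sum_congr rfl (fun k _ => mul_comm _ _)⟩

theorem vec_vars {r : ℕ} (f : Fin r → MvPolynomial (Fin n) K)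
    (hf : ∀ j, f j ∈ idealOfVars (Fin n) K) :
    ∃ b : Fin n → (Fin r → MvPolynomial (Fin n) K), f = ∑ k, (X k : MvPolynomial (Fin n) K) • b k := by
  choose c hc using fun j => (mem_vars_iff (f j)).mp (hf j)
  refine ⟨fun k j => c j k, ?_⟩
  funext j
  rw [hc j, Finset.sum_apply]
  rfl

section base
variable {A N : Type*} [AddCommGroup A] [Module K A] [Module (MvPolynomial (Fin n) K) A]
  [IsScalarTower K (MvPolynomial (Fin n) K) A]
  [AddCommGroup N] [Module K N] [Module (MvPolynomial (Fin n) K) N]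
  [IsScalarTower K (MvPolynomial (Fin n) K) N]

theorem hdim_base (r : ℕ) (ι : A →ₗ[MvPolynomial (Fin n) K] (Fin r → MvPolynomial (Fin n) K))
    (π : (Fin r → MvPolynomial (Fin n) K) →ₗ[MvPolynomial (Fin n) K] N)
    (hπ : Function.Surjective π)
    (hex : ∀ f, π f = 0 ↔ ∃ a, ι a = f)
    (hmin : ∀ a j, ι a j ∈ idealOfVars (Fin n) K) :
    hdim K (X : Fin n → MvPolynomial (Fin n) K) N 0 = r := by
  have h0 : hdim K (X : Fin n → MvPolynomial (Fin n) K) N 0 =
    Module.finrank K (KC K n N 0 ⧸ LinearMap.range (kdiff K (X : Fin n → MvPolynomial (Fin n) K) N 0)) := rfl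
  rw [h0]
  let α : (Fin r → MvPolynomial (Fin n) K) →ₗ[K] (Fin r → K) :=
    { toFun := fun f j => coeff 0 (f j)
      map_add' := fun f g => by funext j; simp
      map_smul' := fun a f => by funext j; simp }
  let β0 : (Fin r → MvPolynomial (Fin n) K) →ₗ[K] KC K n N 0 :=
    { toFun := fun f => AlternatingMap.constOfIsEmpty K (Fin n → K) (Fin 0) (π f)
      map_add' := fun f g => by ext v; simp
      map_smul' := fun a f => by
        ext v
        simp }
  have hβ0 : ∀ f v, β0 f v = π f := fun f v => rfl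
  have h1 : Module.finrank K (Fin r → K) =
      Module.finrank K (KC K n N 0 ⧸ LinearMap.range (kdiff K (X : Fin n → MvPolynomial (Fin n) K) N 0)) := by
    refine finrank_common α ((Submodule.mkQ _) ∘ₗ β0) ?_ ?_ ?_
    · intro c
      refine ⟨fun j => C (c j), ?_⟩
      funext j
      show coeff 0 (C (c j)) = c j
      simp
    · intro x
      obtain ⟨c, rfl⟩ := Submodule.mkQ_surjective _ x
      obtain ⟨f, hf⟩ := hπ (c ![])
      refine ⟨f, ?_⟩
      rw [LinearMap.comp_apply]
      congr 1
      ext v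
      have hv : v = ![] := Subsingleton.elim _ _
      rw [hv, hβ0, hf]
    · ext f
      rw [LinearMap.mem_ker, LinearMap.mem_ker, LinearMap.comp_apply, Submodule.mkQ_apply,
        Submodule.Quotient.mk_eq_zero]
      constructor
      · intro hf
        obtain ⟨b, hb⟩ := vec_vars f (fun j => (cc_iff _).mp (congrFun hf j))
        refine ⟨∑ k, we k (β0 (b k)), ?_⟩
        rw [map_sum]
        ext v
        rw [hβ0, hb, alt_sum_apply, map_sum]
        apply Finset.sum_congr rfl; intro k _
        rw [kdiff_io, alt_sum_apply, Finset.sum_eq_single k]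
        · rw [AlternatingMap.smul_apply, io_we0, if_pos rfl, hβ0, map_smul]
        · intro l _ hl
          rw [AlternatingMap.smul_apply, io_we0, if_neg hl]
          simp
        · intro h; exact absurd (Finset.mem_univ _) h
      · rintro ⟨c, hc⟩
        choose b hb using fun k : Fin n => hπ (c (Matrix.vecCons (Pi.single k 1) ![]))
        have h2 : π (f - ∑ k, (X k : MvPolynomial (Fin n) K) • b k) = 0 := by
          rw [map_sub, map_sum]
          have h3 := congrArg (fun g => g ![]) hc
          simp only [kdiff_apply] at h3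
          rw [hβ0] at h3
          rw [← h3, sub_eq_zero]
          apply Finset.sum_congr rfl; intro k _
          rw [map_smul, hb]
        obtain ⟨a, ha⟩ := (hex _).mp h2
        funext j
        show coeff 0 (f j) = 0
        rw [cc_iff]
        have h4 : f j = ι a j + ∑ k, (X k : MvPolynomial (Fin n) K) * b k j := by
          rw [ha, Pi.sub_apply, Finset.sum_apply]
          simp
        rw [h4]
        refine Ideal.add_mem _ (hmin a j) (Ideal.sum_mem _ fun k _ => Ideal.mul_mem_right _ _ (X_mem k))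
  rw [← h1]
  simp

end base

/-- The ranks of a minimal resolution. -/
theorem hdim_min (J : Ideal (MvPolynomial (Fin n) K)) (r : ℕ → ℕ)
    (F : ∀ k, Matrix (Fin (r k)) (Fin (r (k + 1))) (MvPolynomial (Fin n) K))
    (hF : IsRes (MvPolynomial (Fin n) K) J (idealOfVars (Fin n) K : Set _) r F) (i : ℕ) :
    hdim K (X : Fin n → MvPolynomial (Fin n) K) (MvPolynomial (Fin n) K ⧸ J) i = r i := by
  have hminN : ∀ k (a : LinearMap.range (F k).mulVecLin) j,
      (LinearMap.range (F k).mulVecLin).subtype a j ∈ idealOfVars (Fin n) K := by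
    rintro k ⟨_, ⟨w, rfl⟩⟩ j
    show (F k).mulVec w j ∈ _
    rw [Matrix.mulVec, dotProduct]
    exact Ideal.sum_mem _ fun l _ => Ideal.mul_mem_right _ _ (hF.entries k j l)
  have hminN' : ∀ k (a : LinearMap.range (F k).mulVecLin),
      ∃ b : Fin n → (Fin (r k) → MvPolynomial (Fin n) K),
        (LinearMap.range (F k).mulVecLin).subtype a = ∑ l, (X l : MvPolynomial (Fin n) K) • b l :=
    fun k a => vec_vars _ (hminN k a)
  -- the maps
  have hex : ∀ k f, (F k).mulVecLin.rangeRestrict f = 0 ↔
      ∃ a, (LinearMap.range (F (k + 1)).mulVecLin).subtype a = f := by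
    intro k f
    rw [← Subtype.coe_inj]
    show (F k).mulVec f = 0 ↔ _
    rw [hF.exact k f]
    constructor
    · rintro ⟨w, hw⟩
      exact ⟨⟨f, ⟨w, hw⟩⟩, rfl⟩
    · rintro ⟨⟨_, ⟨w, rfl⟩⟩, rfl⟩
      exact ⟨w, rfl⟩
  have hpos : 0 < r 0 := by rw [hF.rank_zero]; exact Nat.one_pos
  let j0 : Fin (r 0) := ⟨0, hpos⟩
  have hj0 : ∀ j : Fin (r 0), j = j0 := by
    intro j
    have h1 := j.2
    have h2 := hF.rank_zero
    apply Fin.ext
    show (j : ℕ) = 0
    omega
  let π0 : (Fin (r 0) → MvPolynomial (Fin n) K) →ₗ[MvPolynomial (Fin n) K]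
      (MvPolynomial (Fin n) K ⧸ J) := (Submodule.mkQ J) ∘ₗ LinearMap.proj j0
  have hπ0 : Function.Surjective π0 := by
    intro x
    obtain ⟨a, rfl⟩ := Submodule.mkQ_surjective _ x
    exact ⟨fun _ => a, rfl⟩
  have hex0 : ∀ f, π0 f = 0 ↔ ∃ a, (LinearMap.range (F 0).mulVecLin).subtype a = f := by
    intro f
    have h1 : π0 f = 0 ↔ ∀ i, f i ∈ J := by
      show (Submodule.mkQ J) (f j0) = 0 ↔ _
      rw [Submodule.mkQ_apply, Submodule.Quotient.mk_eq_zero]
      constructor
      · intro h j; rw [hj0 j]; exact h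
      · intro h; exact h j0
    rw [h1, ← hF.range_zero f]
    constructor
    · rintro ⟨w, hw⟩
      exact ⟨⟨f, ⟨w, hw⟩⟩, rfl⟩
    · rintro ⟨⟨_, ⟨w, rfl⟩⟩, rfl⟩
      exact ⟨w, rfl⟩
  have hinj : ∀ k, Function.Injective (LinearMap.range (F k).mulVecLin).subtype :=
    fun k => Submodule.subtype_injective _
  have hk : ∀ k i, hdim K (X : Fin n → MvPolynomial (Fin n) K) (LinearMap.range (F k).mulVecLin) i =
      hdim K (X : Fin n → MvPolynomial (Fin n) K) (MvPolynomial (Fin n) K ⧸ J) (i + k + 1) := by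
    intro k
    induction k with
    | zero =>
      intro i
      exact hdim_shift X (divFree (r 0)) _ π0 (hinj 0) hπ0 hex0 (hminN' 0) i
    | succ k ih =>
      intro i
      rw [hdim_shift X (divFree (r (k + 1))) _ (F k).mulVecLin.rangeRestrict (hinj (k + 1))
        (LinearMap.surjective_rangeRestrict _) (hex k) (hminN' (k + 1)) i, ih (i + 1)]
      congr 1
      omega
  cases i with
  | zero => exact hdim_base (r 0) _ π0 hπ0 hex0 (hminN 0)
  | succ k =>
    have h1 := hk k 0
    rw [zero_add] at h1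
    rw [← h1]
    exact hdim_base (r (k + 1)) _ (F k).mulVecLin.rangeRestrict
      (LinearMap.surjective_rangeRestrict _) (hex k) (hminN (k + 1))

end Pool.Agent.H17.Kz
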