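import Mathlib

/-!
# The numerical part
-/

namespace Pool.Agent.H17.Kz

theorem choose_compare (n g : ℕ) (hn : 2 ≤ n) (h : n * (n + 2) ≤ 4 * g) (i : ℕ) :
    (n + 2) ^ i * n.choose i ≤ 4 ^ i * g.choose i := by
  induction i with
  | zero => simp
  | succ i ih =>
    rcases Nat.lt_or_ge n (i + 1) with hi | hi
    · rw [Nat.choose_eq_zero_of_lt hi]; simp
    · have h1 : n.choose (i + 1) * (i + 1) = n.choose i * (n - i) := Nat.choose_succ_right_eq n i
      have h2 : g.choose (i + 1) * (i + 1) = g.choose i * (g - i) := Nat.choose_succ_right_eq g i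
      have hgn : n ≤ g := by nlinarith
      have h3 : (n + 2) * (n - i) ≤ 4 * (g - i) := by
        obtain ⟨a, rfl⟩ : ∃ a, n = i + a := ⟨n - i, by omega⟩
        obtain ⟨b, rfl⟩ : ∃ b, g = i + b := ⟨g - i, by omega⟩
        simp only [Nat.add_sub_cancel_left]
        nlinarith
      have h4 : (n + 2) ^ (i + 1) * n.choose (i + 1) * (i + 1) ≤
          4 ^ (i + 1) * g.choose (i + 1) * (i + 1) := by
        calc (n + 2) ^ (i + 1) * n.choose (i + 1) * (i + 1)
            = ((n + 2) ^ i * n.choose i) * ((n + 2) * (n - i)) := by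
              rw [mul_assoc, h1]; ring
          _ ≤ (4 ^ i * g.choose i) * (4 * (g - i)) := Nat.mul_le_mul ih h3
          _ = 4 ^ (i + 1) * g.choose (i + 1) * (i + 1) := by
              rw [mul_assoc (4 ^ (i + 1)), h2]; ring
      exact Nat.le_of_mul_le_mul_right h4 (Nat.succ_pos i)

theorem four_g (n m g : ℕ) (hm : 4 * m ≤ n ^ 2) (hg : g + m = (n + 1).choose 2) :
    n * (n + 2) ≤ 4 * g := by
  have h1 : (n + 1).choose 2 * 2 = (n + 1) * n := by
    have := Nat.choose_succ_right_eq (n + 1) 1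
    simpa using this
  nlinarith

/-- degrees at least four -/
theorem num4 (n m g : ℕ) (hm : 4 * m ≤ n ^ 2) (hg : g + m = (n + 1).choose 2) (i : ℕ) (hi : 4 ≤ i)
    (hn : 6 ≤ n) : n.choose i * (n + m) ≤ g.choose i := by
  have h1 := choose_compare n g (by omega) (four_g n m g hm hg) i
  have h2 : (n + m) * 4 ^ i ≤ (n + 2) ^ i := by
    obtain ⟨k, rfl⟩ : ∃ k, i = 4 + k := ⟨i - 4, by omega⟩
    have h3 : (n + m) * 4 ^ 4 ≤ (n + 2) ^ 4 := by
      have h4 : 64 * (n ^ 2 + 4 * n) ≤ (n + 2) ^ 4 := by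
        have h5 : 64 ≤ (n + 2) ^ 2 := by nlinarith
        have h6 : (n + 2) ^ 4 = (n + 2) ^ 2 * (n + 2) ^ 2 := by ring
        have h7 : n ^ 2 + 4 * n ≤ (n + 2) ^ 2 := by nlinarith
        rw [h6]
        exact Nat.mul_le_mul h5 h7
      nlinarith
    rw [pow_add, pow_add, ← mul_assoc]
    exact Nat.mul_le_mul h3 (Nat.pow_le_pow_left (by omega) k)
  have h8 : 4 ^ i * (n.choose i * (n + m)) ≤ 4 ^ i * g.choose i := by
    calc 4 ^ i * (n.choose i * (n + m)) = ((n + m) * 4 ^ i) * n.choose i := by ring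
      _ ≤ (n + 2) ^ i * n.choose i := Nat.mul_le_mul_right _ h2
      _ ≤ _ := h1
  exact Nat.le_of_mul_le_mul_left h8 (by positivity)

theorem choose2 (n : ℕ) : (n.choose 2 : ℚ) = n * (n - 1) / 2 := Nat.cast_choose_two ℚ n

theorem choose3 (n : ℕ) : (n.choose 3 : ℚ) = n * (n - 1) * (n - 2) / 6 := by
  rcases Nat.lt_or_ge n 3 with h | h
  · interval_cases n <;> norm_num [Nat.choose]
  · have h1 : n.choose 3 * 3 = n.choose 2 * (n - 2) := Nat.choose_succ_right_eq n 2
    have h2 : ((n.choose 3 : ℕ) : ℚ) * 3 = (n.choose 2 : ℚ) * ((n : ℚ) - 2) := by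
      have h3 : ((n.choose 3 * 3 : ℕ) : ℚ) = ((n.choose 2 * (n - 2) : ℕ) : ℚ) := by rw [h1]
      push_cast [Nat.cast_sub (show 2 ≤ n by omega)] at h3
      exact h3
    rw [choose2] at h2
    linarith

theorem choose4 (n : ℕ) : (n.choose 4 : ℚ) = n * (n - 1) * (n - 2) * (n - 3) / 24 := by
  rcases Nat.lt_or_ge n 4 with h | h
  · interval_cases n <;> norm_num [Nat.choose]
  · have h1 : n.choose 4 * 4 = n.choose 3 * (n - 3) := Nat.choose_succ_right_eq n 3
    have h2 : ((n.choose 4 : ℕ) : ℚ) * 4 = (n.choose 3 : ℚ) * ((n : ℚ) - 3) := by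
      have h3 : ((n.choose 4 * 4 : ℕ) : ℚ) = ((n.choose 3 * (n - 3) : ℕ) : ℚ) := by rw [h1]
      push_cast [Nat.cast_sub (show 3 ≤ n by omega)] at h3
      exact h3
    rw [choose3] at h2
    linarith

theorem num2 (n m g d : ℕ) (hm : 4 * m ≤ n ^ 2) (hg : g + m = (n + 1).choose 2)
    (hd : 4 * d ≤ g ^ 2) (hd2 : d ≤ n.choose 2 * m) :
    n.choose 2 * n + d ≤ g.choose 2 + n.choose 3 + n * m := by
  rcases Nat.lt_or_ge n 5 with hn | hn
  · have hm2 : m ≤ 4 := by nlinarith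
    interval_cases n <;> interval_cases m <;> simp [Nat.choose] at * <;>
      first
        | omega
        | (obtain rfl : g = _ := hg; simp [Nat.choose] at *; omega)
  · have hgq : (g : ℚ) = (n + 1) * n / 2 - m := by
      have h1 : ((g + m : ℕ) : ℚ) = (((n + 1).choose 2 : ℕ) : ℚ) := by rw [hg]
      rw [choose2] at h1
      push_cast at h1
      linarith
    have hdq : (4 : ℚ) * d ≤ g ^ 2 := by exact_mod_cast hd
    have hnq : (5 : ℚ) ≤ n := by exact_mod_cast hn
    have goal : (n.choose 2 : ℚ) * n + d ≤ g.choose 2 + n.choose 3 + n * m := by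
      rw [choose2, choose2, choose3]
      have hmq : (m : ℚ) = (n + 1) * n / 2 - g := by linarith
      rw [hmq]
      have h2 : (0 : ℚ) ≤ (g - (2 * n + 1)) ^ 2 := sq_nonneg _
      have h3 : (0 : ℚ) ≤ 2 / 3 * n ^ 3 - 2 * n ^ 2 - 8 / 3 * n - 1 := by
        have h4 : (0 : ℚ) ≤ n ^ 2 * (n - 5) := mul_nonneg (sq_nonneg _) (by linarith)
        have h5 : (0 : ℚ) ≤ n * (n - 5) := mul_nonneg (by linarith) (by linarith)
        nlinarith
      nlinarith
    exact_mod_cast goal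

theorem num3_large (n m g : ℕ) (hm : 4 * m ≤ n ^ 2) (hg : g + m = (n + 1).choose 2) (hn : 10 ≤ n) :
    n.choose 3 * (n + m) ≤ g.choose 3 + n.choose 4 := by
  have h4g := four_g n m g hm hg
  have hgq : (n : ℚ) * (n + 2) ≤ 4 * g := by exact_mod_cast h4g
  have hmq : (4 : ℚ) * m ≤ n ^ 2 := by exact_mod_cast hm
  have hnq : (10 : ℚ) ≤ n := by exact_mod_cast hn
  have goal : (n.choose 3 : ℚ) * (n + m) ≤ g.choose 3 + n.choose 4 := by
    rw [choose3, choose3, choose4]
    have hg0 : (n : ℚ) * (n + 2) / 4 ≤ g := by linarith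
    have hbig : (30 : ℚ) ≤ n * (n + 2) / 4 := by nlinarith
    have hmono : (n * (n + 2) / 4 : ℚ) * (n * (n + 2) / 4 - 1) * (n * (n + 2) / 4 - 2) ≤
        g * (g - 1) * (g - 2) := by
      apply mul_le_mul
      · apply mul_le_mul hg0 (by linarith) (by linarith) (by linarith)
      · linarith
      · linarith
      · apply mul_nonneg <;> linarith
    have hm1 : (n : ℚ) + m ≤ n + n ^ 2 / 4 := by linarith
    have hc : (0 : ℚ) ≤ n * (n - 1) * (n - 2) / 6 := by
      apply div_nonneg _ (by norm_num)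
      apply mul_nonneg
      · apply mul_nonneg <;> linarith
      · linarith
    have h1 : (n * (n - 1) * (n - 2) / 6 : ℚ) * (n + m) ≤
        n * (n - 1) * (n - 2) / 6 * (n + n ^ 2 / 4) := mul_le_mul_of_nonneg_left hm1 hc
    have h2 : (n * (n - 1) * (n - 2) / 6 : ℚ) * (n + n ^ 2 / 4) ≤
        (n * (n + 2) / 4 : ℚ) * (n * (n + 2) / 4 - 1) * (n * (n + 2) / 4 - 2) / 6 +
        n * (n - 1) * (n - 2) * (n - 3) / 24 := by
      have key : (0 : ℚ) ≤ (n : ℚ) ^ 4 - 8 * n ^ 3 - 16 * n ^ 2 - 8 * n + 16 := by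
        have e : (n : ℚ) ^ 4 - 8 * n ^ 3 - 16 * n ^ 2 - 8 * n + 16 =
            (n - 10) * (n ^ 3 + 2 * n ^ 2 + 4 * n + 32) + 336 := by ring
        rw [e]
        have : (0 : ℚ) ≤ (n - 10) * (n ^ 3 + 2 * n ^ 2 + 4 * n + 32) := by
          apply mul_nonneg (by linarith)
          positivity
        linarith
      have e2 : (n * (n + 2) / 4 : ℚ) * (n * (n + 2) / 4 - 1) * (n * (n + 2) / 4 - 2) / 6 +
        n * (n - 1) * (n - 2) * (n - 3) / 24 - (n * (n - 1) * (n - 2) / 6 : ℚ) * (n + n ^ 2 / 4) =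
        n * (n - 2) * ((n : ℚ) ^ 4 - 8 * n ^ 3 - 16 * n ^ 2 - 8 * n + 16) / 384 := by ring
      have h3 : (0 : ℚ) ≤ n * (n - 2) * ((n : ℚ) ^ 4 - 8 * n ^ 3 - 16 * n ^ 2 - 8 * n + 16) / 384 := by
        apply div_nonneg _ (by norm_num)
        apply mul_nonneg _ key
        apply mul_nonneg <;> linarith
      linarith
    linarith
  exact_mod_cast goal

end Pool.Agent.H17.Kz
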