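import Pool.Agent.H17.KzNum

namespace Pool.Agent.H17.Kz

theorem small3 : ∀ n < 10, ∀ m < 21, 4 * m ≤ n ^ 2 →
    n * (n - 1) * (n - 2) / 6 * (n + m) +
      min (n * (n - 1) / 2 * m) (((n + 1) * n / 2 - m) ^ 2 / 4) ≤
    ((n + 1) * n / 2 - m) * ((n + 1) * n / 2 - m - 1) * ((n + 1) * n / 2 - m - 2) / 6 +
      n * (n - 1) * (n - 2) * (n - 3) / 24 + n * (n - 1) / 2 * m := by
  decide +kernel

theorem c2 (n : ℕ) : n.choose 2 = n * (n - 1) / 2 := Nat.choose_two_right n

theorem c3 (n : ℕ) : n.choose 3 = n * (n - 1) * (n - 2) / 6 := by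
  have h1 : n.choose 3 * 3 = n.choose 2 * (n - 2) := Nat.choose_succ_right_eq n 2
  have h2 : n.choose 2 * 2 = n * (n - 1) := by
    have := Nat.choose_succ_right_eq n 1
    simpa using this
  have h3 : n * (n - 1) * (n - 2) = n.choose 3 * 6 := by
    rw [← h2]
    calc n.choose 2 * 2 * (n - 2) = (n.choose 2 * (n - 2)) * 2 := by ring
      _ = n.choose 3 * 3 * 2 := by rw [h1]
      _ = _ := by ring
  rw [h3, Nat.mul_div_cancel _ (by norm_num)]

theorem c4 (n : ℕ) : n.choose 4 = n * (n - 1) * (n - 2) * (n - 3) / 24 := by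
  have h1 : n.choose 4 * 4 = n.choose 3 * (n - 3) := Nat.choose_succ_right_eq n 3
  have h0 : n.choose 3 * 3 = n.choose 2 * (n - 2) := Nat.choose_succ_right_eq n 2
  have h2 : n.choose 2 * 2 = n * (n - 1) := by
    have := Nat.choose_succ_right_eq n 1
    simpa using this
  have h3 : n * (n - 1) * (n - 2) * (n - 3) = n.choose 4 * 24 := by
    rw [← h2]
    calc n.choose 2 * 2 * (n - 2) * (n - 3) = (n.choose 2 * (n - 2)) * 2 * (n - 3) := by ring
      _ = n.choose 3 * 3 * 2 * (n - 3) := by rw [h0]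
      _ = (n.choose 3 * (n - 3)) * 6 := by ring
      _ = n.choose 4 * 4 * 6 := by rw [h1]
      _ = _ := by ring
  rw [h3, Nat.mul_div_cancel _ (by norm_num)]

theorem num3 (n m g d : ℕ) (hm : 4 * m ≤ n ^ 2) (hg : g + m = (n + 1).choose 2)
    (hd : 4 * d ≤ g ^ 2) (hd2 : d ≤ n.choose 2 * m) :
    n.choose 3 * (n + m) + d ≤ g.choose 3 + n.choose 4 + n.choose 2 * m := by
  rcases Nat.lt_or_ge n 10 with hn | hn
  · have hm2 : m < 21 := by nlinarith
    have h := small3 n hn m hm2 hm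
    have hg2 : g = (n + 1) * n / 2 - m := by
      rw [c2] at hg
      simp only [Nat.add_sub_cancel] at hg
      omega
    rw [← hg2, ← c2, ← c3, ← c3, ← c4] at h
    have h5 : d ≤ min (n.choose 2 * m) (g ^ 2 / 4) := by
      rw [le_min_iff]
      refine ⟨hd2, ?_⟩
      omega
    omega
  · have h := num3_large n m g hm hg hn
    omega

theorem small4 : ∀ n < 6, ∀ m < 7, 4 * m ≤ n ^ 2 → ∀ i < 6, 4 ≤ i →
    n.choose i * (n + m) ≤ ((n + 1) * n / 2 - m).choose i := by
  decide +kernel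

theorem num4' (n m g : ℕ) (hm : 4 * m ≤ n ^ 2) (hg : g + m = (n + 1).choose 2) (i : ℕ) (hi : 4 ≤ i) :
    n.choose i * (n + m) ≤ g.choose i := by
  rcases Nat.lt_or_ge n 6 with hn | hn
  · rcases Nat.lt_or_ge i 6 with hi6 | hi6
    · have hm2 : m < 7 := by nlinarith
      have h := small4 n hn m hm2 hm i hi6 hi
      have hg2 : g = (n + 1) * n / 2 - m := by
        rw [c2] at hg
        simp only [Nat.add_sub_cancel] at hg
        omega
      rw [← hg2] at h
      exact h
    · rw [Nat.choose_eq_zero_of_lt (by omega)]; simp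
  · exact num4 n m g hm hg i hi hn

end Pool.Agent.H17.Kz
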