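import Pool.Agent.H17.KzBetti
import Pool.Agent.H17.KzNum2

open Finset BigOperators

namespace Pool.Agent.H17.Kz

variable {K : Type*} [Field K] {n m : ℕ} {c : Fin m → Fin n → Fin n → K}

theorem del1_elt (i : ℕ) (t : Fin (i + 1) → Fin n) (l : Fin n) (v : Fin i → Fin n → K) (j : Fin m) :
    del1 c i (elt t l) v j = ∑ k, c j k l * eps t (Matrix.vecCons (Pi.single k 1) v) := by
  rw [del1_apply]
  apply Finset.sum_congr rfl; intro k _
  rw [Finset.sum_eq_single l]
  · rw [elt_apply, if_pos rfl]
  · intro q _ hq; rw [elt_apply, if_neg hq, mul_zero]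
  · simp

theorem fin0_eq (t : Fin 0 → Fin n) : t = ![] := by funext x; exact x.elim0

theorem fin1_eq (t : Fin 1 → Fin n) : t = ![t 0] := by
  funext x; fin_cases x; rfl

theorem fin2_eq (t : Fin 2 → Fin n) : t = ![t 0, t 1] := by
  funext x
  fin_cases x <;> rfl

section ranks
variable {V : Type*} [AddCommGroup V] [Module K V] (S : KDat K n m c V)

include S in
theorem KDat.lin_ind (φ : Fin m → K) (h : ∀ a l, ∑ j, c j a l * φ j = 0) : φ = 0 := by
  have h1 : (fun j => φ j • S.v0) = 0 := by
    apply S.inj
    intro a
    simp only [map_smul, smul_smul]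
    rw [Finset.sum_comm]
    apply Finset.sum_eq_zero; intro p _
    rw [← Finset.sum_smul, h a p, zero_smul]
  funext j
  exact (smul_eq_zero.mp (congrFun h1 j)).resolve_right S.v0ne

include S in
theorem rank0 : m ≤ Module.finrank K (LinearMap.range (del1 c 0)) := by
  have h := ann_rank c 0 (theta (m := m) 0) (theta_inj_of_span 0 span0) ⊥ (by
    intro lam hlam
    rw [Submodule.mem_bot]
    have h1 : (fun j => lam (elt ![] j)) = 0 := by
      apply S.lin_ind
      intro a l
      have h2 := hlam (elt ![a] l)
      have h3 : del1 c 0 (elt ![a] l) = ∑ j, c j a l • elt ![] j := by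
        ext1 v
        rw [alt_sum_apply]
        funext j
        rw [del1_elt]
        simp only [Finset.sum_apply, AlternatingMap.smul_apply, Pi.smul_apply, smul_eq_mul, elt_apply]
        have h4 : ∀ k, eps ![a] (Matrix.vecCons (Pi.single k (1 : K)) v) = if k = a then 1 else 0 := by
          intro k
          rw [eps_apply]
          simp [Pi.single_apply, eq_comm]
        simp only [h4]
        simp [eps_apply]
      rw [h3, map_sum] at h2
      simpa only [map_smul, smul_eq_mul] using h2
    funext t j
    rw [theta_apply, fin0_eq t]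
    exact congrFun h1 j)
  simpa using h

include S in
theorem rank1 (hc : ∀ j p q, c j p q = c j q p) :
    n * m ≤ Module.finrank K (LinearMap.range (del1 c 1)) := by
  have h := ann_rank c 1 (theta (m := m) 1) (theta_inj_of_span 1 span1) ⊥ (by
    intro lam hlam
    rw [Submodule.mem_bot]
    have h1 : (fun j b => lam (elt ![b] j)) = 0 := by
      apply S.c1 hc
      intro a b l
      have h2 := hlam (elt ![a, b] l)
      have h3 : del1 c 1 (elt ![a, b] l) = ∑ j, (c j a l • elt ![b] j - c j b l • elt ![a] j) := by
        ext1 v
        rw [alt_sum_apply]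
        funext j
        rw [del1_elt]
        simp only [Finset.sum_apply, AlternatingMap.sub_apply, AlternatingMap.smul_apply,
          Pi.smul_apply, Pi.sub_apply, smul_eq_mul, elt_apply]
        have h4 : ∀ k, eps ![a, b] (Matrix.vecCons (Pi.single k (1 : K)) v) =
            (if k = a then 1 else 0) * v 0 b - (if k = b then 1 else 0) * v 0 a := by
          intro k
          rw [eps_apply, Matrix.det_fin_two]
          simp [Pi.single_apply, eq_comm]
        simp only [h4, mul_sub, Finset.sum_sub_distrib]
        simp [eps_apply]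
      rw [h3, map_sum] at h2
      simpa only [map_sub, map_smul, smul_eq_mul] using h2
    funext t j
    rw [theta_apply, fin1_eq t]
    exact congrFun (congrFun h1 j) (t 0))
  simpa using h

/-- rearranging the coordinates -/
noncomputable def Lmap : ((Fin 2 → Fin n) → Fin m → K) →ₗ[K] (Fin m → Fin n → Fin n → K) where
  toFun g := fun j p q => g ![p, q] j
  map_add' _ _ := rfl
  map_smul' _ _ := rfl

theorem rank2 : n.choose 2 * m ≤ Module.finrank K (LinearMap.range (del1 c 2)) +
    Module.finrank K (DD c) := by
  apply ann_rank c 2 (Lmap ∘ₗ theta (m := m) 2)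
  · intro lam hlam
    apply theta_inj_of_span 2 span2
    funext t j
    rw [fin2_eq t]
    exact congrFun (congrFun (congrFun hlam j) (t 0)) (t 1)
  · intro lam hlam
    refine ⟨fun j p => ?_, fun j p q => ?_, fun l a b e => ?_⟩
    · show lam (elt ![p, p] j) = 0
      have : (elt ![p, p] j : KC K n (Fin m → K) 2) = 0 := by
        ext1 v
        funext j'
        rw [elt_apply, eps_apply, Matrix.det_fin_two]
        simp
      rw [this, map_zero]
    · show lam (elt ![p, q] j) = - lam (elt ![q, p] j)
      have : (elt ![p, q] j : KC K n (Fin m → K) 2) = - elt ![q, p] j := by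
        ext1 v
        funext j'
        rw [AlternatingMap.neg_apply, Pi.neg_apply, elt_apply, elt_apply, eps_apply, eps_apply,
          Matrix.det_fin_two, Matrix.det_fin_two]
        simp only [Matrix.of_apply, Matrix.cons_val_zero, Matrix.cons_val_one]
        split_ifs <;> ring
      rw [this, map_neg]
    · show ∑ j, (c j a l * lam (elt ![b, e] j) - c j b l * lam (elt ![a, e] j) +
        c j e l * lam (elt ![a, b] j)) = 0
      have h2 := hlam (elt ![a, b, e] l)
      have h3 : del1 c 2 (elt ![a, b, e] l) = ∑ j, (c j a l • elt ![b, e] j - c j b l • elt ![a, e] j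
          + c j e l • elt ![a, b] j) := by
        ext1 v
        rw [alt_sum_apply]
        funext j
        rw [del1_elt]
        simp only [Finset.sum_apply, AlternatingMap.sub_apply, AlternatingMap.add_apply,
          AlternatingMap.smul_apply, Pi.add_apply,
          Pi.smul_apply, Pi.sub_apply, smul_eq_mul, elt_apply]
        have h4 : ∀ k, eps ![a, b, e] (Matrix.vecCons (Pi.single k (1 : K)) v) =
            (if k = a then 1 else 0) * eps ![b, e] v - (if k = b then 1 else 0) * eps ![a, e] v
            + (if k = e then 1 else 0) * eps ![a, b] v := by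
          intro k
          rw [eps_apply, eps_apply, eps_apply, eps_apply, Matrix.det_fin_three, Matrix.det_fin_two,
            Matrix.det_fin_two, Matrix.det_fin_two]
          simp [Pi.single_apply, eq_comm]
          split_ifs <;> ring
        simp only [h4, mul_sub, mul_add, Finset.sum_sub_distrib, Finset.sum_add_distrib]
        simp
      rw [h3, map_sum] at h2
      simpa only [map_sub, map_add, map_smul, smul_eq_mul] using h2

theorem rank_le (i : ℕ) : Module.finrank K (LinearMap.range (del1 c i)) ≤ n.choose i * m := by
  have h := Submodule.finrank_le (LinearMap.range (del1 c i))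
  rw [finrank_KC] at h
  simpa using h

end ranks

section final
variable {R : Type*} [CommRing R] [Algebra K R] (A : Short K n m c R)

include A in
theorem Short.fin : FiniteDimensional K R := Module.Finite.equiv A.Φ

/-- The inequality on the level of algebras with coordinates. -/
theorem main_short {V : Type*} [AddCommGroup V] [Module K V] (S : KDat K n m c V)
    (hm : 4 * m ≤ n ^ 2) (i : ℕ) :
    hdim K A.ξ R i ≤ (hdim K A.ξ R 1).choose i := by
  have := A.fin
  have hc := A.c_symm
  set r : ℕ → ℕ := fun i => Module.finrank K (LinearMap.range (del1 c i)) with hr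
  have hR : Module.finrank K R = 1 + n + m := Short.finrank_R A
  have hr0 : r 0 = m := le_antisymm (by simpa using rank_le (c := c) 0) (rank0 S)
  have hr1 : r 1 = n * m := le_antisymm (by simpa using rank_le (c := c) 1) (rank1 S hc)
  have hr2 : n.choose 2 * m ≤ r 2 + Module.finrank K (DD c) := rank2
  have hr2' : r 2 ≤ n.choose 2 * m := rank_le 2
  have hman := S.mantel hc
  have hH : ∀ i, hdim K A.ξ R (i + 1) + n.choose (i + 2) + r (i + 1) + r i =
      n.choose (i + 1) * (n + m) := by
    intro i
    have h1 := hdim_succ (K := K) (M := R) A.ξ i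
    rw [rank_kdiff, rank_kdiff, hR] at h1
    have h2 : n.choose (i + 1) * (1 + n + m) = n.choose (i + 1) + n.choose (i + 1) * (n + m) := by
      ring
    rw [h2] at h1
    show hdim K A.ξ R (i + 1) + n.choose (i + 2) + Module.finrank K (LinearMap.range (del1 c (i + 1)))
      + Module.finrank K (LinearMap.range (del1 c i)) = _
    have h3 : n.choose (i + 1 + 1) = n.choose (i + 2) := rfl
    omega
  have hc2 : (n + 1).choose 2 + n.choose 2 = n * n := by
    have h1 : (n + 1).choose 2 * 2 = (n + 1) * n := by
      have := Nat.choose_succ_right_eq (n + 1) 1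
      simpa using this
    have h2 : n.choose 2 * 2 = n * (n - 1) := by
      have := Nat.choose_succ_right_eq n 1
      simpa using this
    rcases Nat.eq_zero_or_pos n with h0 | h0
    · subst h0; simp
    · obtain ⟨k, rfl⟩ : ∃ k, n = k + 1 := ⟨n - 1, by omega⟩
      simp only [Nat.add_sub_cancel] at h2
      nlinarith
  set g := hdim K A.ξ R 1 with hg
  have hg1 : g + m = (n + 1).choose 2 := by
    have h1 := hH 0
    simp only [Nat.zero_add, Nat.choose_one_right] at h1
    rw [hr0, hr1] at h1
    have h2 : n * (n + m) = n * n + n * m := by ring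
    rw [h2] at h1
    omega
  have hgm : (n + 1).choose 2 - m = g := by omega
  rw [hgm] at hman
  obtain ⟨d, hd⟩ : ∃ d, r 2 + d = n.choose 2 * m := ⟨n.choose 2 * m - r 2, by omega⟩
  have hd1 : d ≤ n.choose 2 * m := by omega
  have hd2 : 4 * d ≤ g ^ 2 := by omega
  match i with
  | 0 =>
    have h1 : hdim K A.ξ R 0 = 1 := by
      show Module.finrank K (KC K n R 0 ⧸ LinearMap.range (kdiff K A.ξ R 0)) = 1
      have h2 := Submodule.finrank_quotient_add_finrank (LinearMap.range (kdiff K A.ξ R 0))
      rw [rank_kdiff, finrank_KC, hR] at h2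
      have h3 : Module.finrank K (LinearMap.range (del1 c 0)) = m := hr0
      rw [h3] at h2
      simp only [Nat.choose_zero_right, Nat.zero_add, Nat.choose_one_right, one_mul] at h2
      omega
    rw [h1]; simp
  | 1 => rw [Nat.choose_one_right]
  | 2 =>
    have h1 := hH 1
    rw [hr1] at h1
    have h2 := num2 n m g d hm hg1 hd2 hd1
    have h3 : n.choose (1 + 1) * (n + m) = n.choose 2 * n + n.choose 2 * m := by ring
    rw [h3] at h1
    have h4 : n.choose (1 + 2) = n.choose 3 := rfl
    have h5 : r (1 + 1) = r 2 := rfl
    show hdim K A.ξ R (1 + 1) ≤ _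
    omega
  | 3 =>
    have h1 := hH 2
    have h2 := num3 n m g d hm hg1 hd2 hd1
    have h4 : n.choose (2 + 2) = n.choose 4 := rfl
    have h5 : n.choose (2 + 1) = n.choose 3 := rfl
    show hdim K A.ξ R (2 + 1) ≤ _
    rw [h5] at h1
    omega
  | i + 4 =>
    have h1 := hH (i + 3)
    have h2 := num4' n m g hm hg1 (i + 4) (by omega)
    have h5 : n.choose (i + 3 + 1) = n.choose (i + 4) := rfl
    show hdim K A.ξ R (i + 3 + 1) ≤ _
    rw [h5] at h1
    omega

end final

end Pool.Agent.H17.Kz
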