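import Pool.Agent.H17.KzDef
import Pool.Agent.H17.KzRanks

open MvPolynomial Finset BigOperators

namespace Pool.Agent.H17.Kz

variable {K : Type*} [Field K] {n : ℕ} (I : Ideal (MvPolynomial (Fin n) K))

/-- class of a variable -/
noncomputable def qx (l : Fin n) : MvPolynomial (Fin n) K ⧸ I := Ideal.Quotient.mk I (X l)

theorem smul_mk (a : K) (q : MvPolynomial (Fin n) K) :
    a • (Ideal.Quotient.mk I q) = Ideal.Quotient.mk I (C a * q) := by
  rw [← MvPolynomial.smul_eq_C_mul]; rfl

/-- `R₂` -/
noncomputable def R2 : Submodule K (MvPolynomial (Fin n) K ⧸ I) :=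
  Submodule.span K (Set.range fun x : Fin n × Fin n => qx I x.1 * qx I x.2)

instance R2_fin : FiniteDimensional K (R2 I) := by
  unfold R2
  exact FiniteDimensional.span_of_finite K (Set.finite_range _)

theorem X_mem (l : Fin n) : (X l : MvPolynomial (Fin n) K) ∈ idealOfVars (Fin n) K :=
  Ideal.subset_span ⟨l, rfl⟩

theorem qx_mul_R2 (h3 : idealOfVars (Fin n) K ^ 3 ≤ I) (l : Fin n) (r : MvPolynomial (Fin n) K ⧸ I)
    (hr : r ∈ R2 I) : qx I l * r = 0 := by
  unfold R2 at hr
  induction hr using Submodule.span_induction with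
  | mem x hx =>
    obtain ⟨⟨p, q⟩, rfl⟩ := hx
    have h : qx I l * (qx I p * qx I q) = Ideal.Quotient.mk I (X l * (X p * X q)) := by
      simp [qx]
    show qx I l * (qx I p * qx I q) = 0
    rw [h, Ideal.Quotient.eq_zero_iff_mem]
    apply h3
    have h4 : (X l * (X p * X q) : MvPolynomial (Fin n) K) ∈
        idealOfVars (Fin n) K * (idealOfVars (Fin n) K * idealOfVars (Fin n) K) :=
      Ideal.mul_mem_mul (X_mem l) (Ideal.mul_mem_mul (X_mem p) (X_mem q))
    have h5 : idealOfVars (Fin n) K * (idealOfVars (Fin n) K * idealOfVars (Fin n) K) =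
        idealOfVars (Fin n) K ^ 3 := by ring
    rw [← h5]; exact h4
  | zero => simp
  | add x y _ _ hx hy => rw [mul_add, hx, hy, add_zero]
  | smul a x _ hx => rw [mul_smul_comm, hx, smul_zero]

theorem R2_lift (r : MvPolynomial (Fin n) K ⧸ I) (hr : r ∈ R2 I) :
    ∃ q ∈ idealOfVars (Fin n) K ^ 2, Ideal.Quotient.mk I q = r := by
  unfold R2 at hr
  induction hr using Submodule.span_induction with
  | mem x hx =>
    obtain ⟨⟨p, q⟩, rfl⟩ := hx
    refine ⟨X p * X q, ?_, by simp [qx]⟩
    rw [pow_two]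
    exact Ideal.mul_mem_mul (X_mem p) (X_mem q)
  | zero => exact ⟨0, Ideal.zero_mem _, by simp⟩
  | add x y _ _ hx hy =>
    obtain ⟨q, hq, rfl⟩ := hx
    obtain ⟨q', hq', rfl⟩ := hy
    exact ⟨q + q', Ideal.add_mem _ hq hq', by simp⟩
  | smul a x _ hx =>
    obtain ⟨q, hq, rfl⟩ := hx
    exact ⟨C a * q, Ideal.mul_mem_left _ _ hq, (smul_mk I a q).symm⟩

noncomputable abbrev bas : Module.Basis (Fin (Module.finrank K (R2 I))) K (R2 I) :=
  Module.finBasis K (R2 I)

noncomputable def phi : (K × (Fin n → K) × (Fin (Module.finrank K (R2 I)) → K)) →ₗ[K]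
    MvPolynomial (Fin n) K ⧸ I where
  toFun x := algebraMap K _ x.1 + ∑ l, x.2.1 l • qx I l + ∑ j, x.2.2 j • (bas I j : MvPolynomial (Fin n) K ⧸ I)
  map_add' x y := by
    simp only [Prod.fst_add, Prod.snd_add, Pi.add_apply, add_smul, Finset.sum_add_distrib, map_add]
    ring
  map_smul' a x := by
    simp only [Prod.smul_fst, Prod.smul_snd, Pi.smul_apply, smul_eq_mul, mul_smul, map_mul,
      RingHom.id_apply, smul_add, Finset.smul_sum]
    rw [← Algebra.smul_def]

theorem phi_apply (x) : phi I x = algebraMap K _ x.1 + ∑ l, x.2.1 l • qx I l +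
    ∑ j, x.2.2 j • (bas I j : MvPolynomial (Fin n) K ⧸ I) := rfl

theorem R2_repr (r : MvPolynomial (Fin n) K ⧸ I) (hr : r ∈ R2 I) :
    r = ∑ j, (bas I).repr ⟨r, hr⟩ j • (bas I j : MvPolynomial (Fin n) K ⧸ I) := by
  have h := congrArg (Submodule.subtype (R2 I)) ((bas I).sum_repr ⟨r, hr⟩)
  rw [map_sum] at h
  simp only [map_smul, Submodule.subtype_apply] at h
  exact h.symm

theorem phi_R2 (r : MvPolynomial (Fin n) K ⧸ I) (hr : r ∈ R2 I) : ∃ w, phi I (0, 0, w) = r := by
  refine ⟨fun j => (bas I).repr ⟨r, hr⟩ j, ?_⟩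
  rw [phi_apply]
  simp only [map_zero, Pi.zero_apply, zero_smul, Finset.sum_const_zero, zero_add]
  exact (R2_repr I r hr).symm

theorem phi_surj (h3 : idealOfVars (Fin n) K ^ 3 ≤ I) : Function.Surjective (phi I) := by
  rw [← LinearMap.range_eq_top, eq_top_iff]
  rintro r -
  obtain ⟨f, rfl⟩ := Ideal.Quotient.mk_surjective r
  induction f using MvPolynomial.induction_on with
  | C a =>
    refine ⟨(a, 0, 0), ?_⟩
    rw [phi_apply]
    simp
    rfl
  | add p q hp hq => rw [map_add]; exact Submodule.add_mem _ hp hq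
  | mul_X p l hp =>
    rw [map_mul]
    obtain ⟨⟨a, u, w⟩, hx⟩ := hp
    rw [← hx, mul_comm]
    have h1 : Ideal.Quotient.mk I (X l) * phi I (a, u, w) = a • qx I l +
        ∑ q, u q • (qx I l * qx I q) := by
      rw [phi_apply]
      show qx I l * _ = _
      simp only [mul_add, Finset.mul_sum, mul_smul_comm]
      have h2 : ∀ j, qx I l * (bas I j : MvPolynomial (Fin n) K ⧸ I) = 0 := fun j =>
        qx_mul_R2 I h3 l _ (bas I j).2
      simp only [h2, smul_zero, Finset.sum_const_zero, add_zero]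
      congr 1
      show Ideal.Quotient.mk I (X l) * Ideal.Quotient.mk I (C a) = a • Ideal.Quotient.mk I (X l)
      rw [smul_mk, map_mul, mul_comm]
    rw [h1]
    apply Submodule.add_mem
    · refine ⟨(0, Pi.single l a, 0), ?_⟩
      rw [phi_apply]
      simp only [map_zero, zero_add, Pi.zero_apply, zero_smul, Finset.sum_const_zero, add_zero]
      rw [Finset.sum_eq_single l]
      · simp
      · intro b _ hb; simp [Pi.single_eq_of_ne hb]
      · simp
    · apply Submodule.sum_mem
      intro q _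
      apply Submodule.smul_mem
      obtain ⟨w', hw'⟩ := phi_R2 I (qx I l * qx I q) (Submodule.subset_span ⟨(l, q), rfl⟩)
      exact ⟨_, hw'⟩

theorem phi_inj (h2 : I ≤ idealOfVars (Fin n) K ^ 2) : Function.Injective (phi I) := by
  rw [← LinearMap.ker_eq_bot, LinearMap.ker_eq_bot']
  rintro ⟨a, u, w⟩ hx
  rw [phi_apply] at hx
  simp only at hx
  have hmem : ∑ j, w j • (bas I j : MvPolynomial (Fin n) K ⧸ I) ∈ R2 I :=
    Submodule.sum_mem _ (fun j _ => Submodule.smul_mem _ _ (bas I j).2)
  obtain ⟨q, hq, hq2⟩ := R2_lift I _ hmem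
  have h1 : Ideal.Quotient.mk I (C a + ∑ l, C (u l) * X l + q) = 0 := by
    rw [← hx, map_add, map_add, hq2, map_sum]
    congr 2
    apply Finset.sum_congr rfl; intro l _
    exact (smul_mk I (u l) (X l)).symm
  rw [Ideal.Quotient.eq_zero_iff_mem] at h1
  have h4 := (mem_pow_idealOfVars_iff' 2 _).mp (h2 h1)
  have h5 := (mem_pow_idealOfVars_iff' 2 _).mp hq
  have ha : a = 0 := by
    have h6 := h4 0 (by simp)
    rw [coeff_add, coeff_add, h5 0 (by simp), add_zero, coeff_sum] at h6
    simpa using h6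
  have hu : u = 0 := by
    funext l
    have hdeg : Finsupp.degree (Finsupp.single l 1) < 2 := by simp
    have h6 := h4 (Finsupp.single l 1) hdeg
    rw [coeff_add, coeff_add, h5 _ hdeg, add_zero, coeff_sum, ha] at h6
    simp only [map_zero, coeff_zero, zero_add, coeff_C_mul, coeff_X] at h6
    rw [Finset.sum_eq_single l] at h6
    · simpa using h6
    · intro b _ hb
      rw [if_neg, mul_zero]
      intro h
      exact hb (Finsupp.single_left_injective one_ne_zero h)
    · simp
  subst ha
  subst hu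
  simp only [map_zero, Pi.zero_apply, zero_smul, Finset.sum_const_zero, zero_add] at hx
  have hw : w = 0 := by
    have h7 : ∑ j, w j • bas I j = 0 := by
      apply Subtype.ext
      refine Eq.trans ?_ hx
      simp only [AddSubmonoidClass.coe_finsetSum, Submodule.coe_smul]
    funext j
    exact (Fintype.linearIndependent_iff.mp (bas I).linearIndependent) w h7 j
  rw [hw]
  rfl

/-- structure constants -/
noncomputable def cc (j : Fin (Module.finrank K (R2 I))) (p q : Fin n) : K :=
  (bas I).repr ⟨qx I p * qx I q, Submodule.subset_span ⟨(p, q), rfl⟩⟩ j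

/-- coordinates for `R = S/I` -/
noncomputable def theShort (h2 : I ≤ idealOfVars (Fin n) K ^ 2) (h3 : idealOfVars (Fin n) K ^ 3 ≤ I) :
    Short K n (Module.finrank K (R2 I)) (cc I) (MvPolynomial (Fin n) K ⧸ I) where
  ξ := qx I
  e := fun j => bas I j
  Φ := LinearEquiv.ofBijective (phi I) ⟨phi_inj I h2, phi_surj I h3⟩
  Φ_eq _ _ _ := rfl
  ξξ _ _ := R2_repr I _ _
  ξe p j := qx_mul_R2 I h3 p _ (bas I j).2

/-- A Koszul algebra with `R₃ = 0` has the numerical data of the core argument. -/
theorem koszul_data (h2 : I ≤ idealOfVars (Fin n) K ^ 2) (h3 : idealOfVars (Fin n) K ^ 3 ≤ I)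
    (hK : IsKoszul I) : Nonempty (Strands K n (Module.finrank K (R2 I)) (cc I)) := by
  classical
  obtain ⟨b, d, h⟩ := hK
  have hD : ∀ k i j, ∃ D : Fin n → K, d k i j = ∑ l, D l • qx I l := by
    intro k i j
    have h4 : d k i j ∈ Submodule.span K (Set.range fun l => Ideal.Quotient.mk I (X l)) :=
      h.entries k i j
    rw [Submodule.mem_span_range_iff_exists_fun] at h4
    obtain ⟨D, hD⟩ := h4
    exact ⟨D, hD.symm⟩
  choose D hD using hD
  let A := theShort I h2 h3
  have hmul : ∀ k (v : Fin (b (k + 1)) → MvPolynomial (Fin n) K ⧸ I) i,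
      (d k).mulVec v i = ∑ a, ∑ l, D k i a l • (A.ξ l * v a) := by
    intro k v i
    simp only [Matrix.mulVec, dotProduct]
    apply Finset.sum_congr rfl; intro a _
    rw [hD, Finset.sum_mul]
    apply Finset.sum_congr rfl; intro l _
    rw [smul_mul_assoc]
    rfl
  have hres : A.LinRes b (fun k l i a => D k i a l) := by
    constructor
    · exact h.rank_zero
    · intro v hv
      have h5 : ∀ i, v i ∈ (idealOfVars (Fin n) K).map (Ideal.Quotient.mk I) := by
        intro i
        rw [← A.eta (v i), hv i, A.Φ_eq]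
        rw [map_zero, zero_add]
        apply Ideal.add_mem
        · apply Ideal.sum_mem
          intro l _
          rw [Algebra.smul_def]
          apply Ideal.mul_mem_left
          exact Ideal.mem_map_of_mem _ (X_mem l)
        · apply Ideal.sum_mem
          intro j _
          rw [Algebra.smul_def]
          apply Ideal.mul_mem_left
          obtain ⟨q, hq, hq2⟩ := R2_lift I _ (bas I j).2
          have h6 : A.e j = (bas I j : MvPolynomial (Fin n) K ⧸ I) := rfl
          rw [h6, ← hq2]
          apply Ideal.mem_map_of_mem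
          exact (Ideal.pow_le_self (by norm_num)) hq
      obtain ⟨w, hw⟩ := (h.range_zero v).mpr h5
      refine ⟨w, fun i => ?_⟩
      rw [← hmul, hw]
    · intro k v
      have h5 := h.exact k v
      constructor
      · intro h6
        obtain ⟨w, hw⟩ := h5.mp (by funext i; rw [hmul]; exact h6 i)
        exact ⟨w, fun i => by rw [← hmul, hw]⟩
      · rintro ⟨w, hw⟩ i
        have h7 := h5.mpr ⟨w, by funext i; rw [hmul]; exact hw i⟩
        rw [← hmul, h7]
        rfl
  exact ⟨hres.toStrands⟩

/-- Version with Koszul homology. -/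
theorem main_hdim (h2 : I ≤ idealOfVars (Fin n) K ^ 2) (h3 : idealOfVars (Fin n) K ^ 3 ≤ I)
    (hK : IsKoszul I) (i : ℕ) :
    hdim K (qx I) (MvPolynomial (Fin n) K ⧸ I) i ≤
      (hdim K (qx I) (MvPolynomial (Fin n) K ⧸ I) 1).choose i := by
  obtain ⟨T⟩ := koszul_data I h2 h3 hK
  exact main_short (theShort I h2 h3) (T.toKDat (theShort I h2 h3).c_symm) T.four_m_le i

end Pool.Agent.H17.Kz
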