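import Pool.Agent.H17.KzStrand

open Finset BigOperators

namespace Pool.Agent.H17.Kz

section Mat
variable {K : Type*} [Field K] {p q r : Type*} [Fintype p] [Fintype q] [Fintype r]
  [DecidableEq p] [DecidableEq q] [DecidableEq r]

theorem mat_surj_of_inj (M : Matrix p q K) (h : ∀ v, M.mulVec v = 0 → v = 0) (w : q → K) :
    ∃ u, M.transpose.mulVec u = w := by
  have h1 : LinearMap.ker M.mulVecLin = ⊥ := by
    rw [LinearMap.ker_eq_bot']
    exact h
  have h2 := LinearMap.finrank_range_add_finrank_ker M.mulVecLin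
  rw [h1, finrank_bot, add_zero] at h2
  have h3 : M.transpose.rank = Module.finrank K (q → K) := by
    rw [Matrix.rank_transpose]
    exact h2
  have h4 : LinearMap.range M.transpose.mulVecLin = ⊤ := Submodule.eq_top_of_finrank_eq h3
  obtain ⟨u, hu⟩ := LinearMap.range_eq_top.mp h4 w
  exact ⟨u, hu⟩

theorem mat_inj_of_surj (M : Matrix p q K) (h : ∀ w, ∃ v, M.mulVec v = w) (u : p → K)
    (hu : M.transpose.mulVec u = 0) : u = 0 := by
  have h1 : LinearMap.range M.mulVecLin = ⊤ := LinearMap.range_eq_top.mpr h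
  have h2 : M.rank = Module.finrank K (p → K) := by
    rw [Matrix.rank, h1, finrank_top]
  have h3 := LinearMap.finrank_range_add_finrank_ker M.transpose.mulVecLin
  have h4 : Module.finrank K (LinearMap.range M.transpose.mulVecLin) = Module.finrank K (p → K) := by
    have := Matrix.rank_transpose M
    rw [← h2, ← this, Matrix.rank]
  have h5 : Module.finrank K (LinearMap.ker M.transpose.mulVecLin) = 0 := by omega
  have h6 : LinearMap.ker M.transpose.mulVecLin = ⊥ := Submodule.finrank_eq_zero.mp h5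
  rw [LinearMap.ker_eq_bot'] at h6
  exact h6 u hu

theorem mat_exact (A : Matrix p q K) (B : Matrix q r K)
    (hAB : ∀ v, A.mulVec v = 0 ↔ ∃ w, B.mulVec w = v) (u : q → K)
    (hu : B.transpose.mulVec u = 0) : ∃ w, A.transpose.mulVec w = u := by
  have h1 : LinearMap.ker A.mulVecLin = LinearMap.range B.mulVecLin := by
    ext v
    rw [LinearMap.mem_ker, LinearMap.mem_range]
    exact hAB v
  have h0 : A * B = 0 := by
    apply Matrix.toLin'.injective
    ext1 i
    ext1
    have h := (hAB (B.mulVec (Pi.single i 1))).mpr ⟨_, rfl⟩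
    rw [Matrix.toLin'_mul]
    simp only [LinearMap.comp_apply, Matrix.toLin'_apply, LinearMap.coe_single, h, map_zero,
      LinearMap.zero_apply]
  have h2 : LinearMap.range A.transpose.mulVecLin ≤ LinearMap.ker B.transpose.mulVecLin := by
    rintro _ ⟨w, rfl⟩
    rw [LinearMap.mem_ker]
    simp only [Matrix.mulVecLin_apply, Matrix.mulVec_mulVec]
    rw [← Matrix.transpose_mul, h0]
    simp
  have h3 := LinearMap.finrank_range_add_finrank_ker A.mulVecLin
  have h4 := LinearMap.finrank_range_add_finrank_ker B.transpose.mulVecLin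
  have h5 : Module.finrank K (LinearMap.range A.transpose.mulVecLin) =
      Module.finrank K (LinearMap.range A.mulVecLin) := Matrix.rank_transpose A
  have h6 : Module.finrank K (LinearMap.range B.transpose.mulVecLin) =
      Module.finrank K (LinearMap.range B.mulVecLin) := Matrix.rank_transpose B
  rw [h1] at h3
  have h7 : LinearMap.range A.transpose.mulVecLin = LinearMap.ker B.transpose.mulVecLin := by
    apply Submodule.eq_of_le_of_finrank_eq h2
    omega
  have h8 : u ∈ LinearMap.ker B.transpose.mulVecLin := hu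
  rw [← h7] at h8
  obtain ⟨w, hw⟩ := h8
  exact ⟨w, hw⟩

end Mat

/-- A commutative algebra `R = K ⊕ R₁ ⊕ R₂` with bases. -/
structure Short (K : Type*) [Field K] (n m : ℕ) (c : Fin m → Fin n → Fin n → K)
    (R : Type*) [CommRing R] [Algebra K R] where
  ξ : Fin n → R
  e : Fin m → R
  Φ : (K × (Fin n → K) × (Fin m → K)) ≃ₗ[K] R
  Φ_eq : ∀ a u w, Φ (a, u, w) = algebraMap K R a + ∑ l, u l • ξ l + ∑ j, w j • e j
  ξξ : ∀ p q, ξ p * ξ q = ∑ j, c j p q • e j
  ξe : ∀ p j, ξ p * e j = 0

namespace Short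

variable {K : Type*} [Field K] {n m : ℕ} {c : Fin m → Fin n → Fin n → K}
    {R : Type*} [CommRing R] [Algebra K R] (A : Short K n m c R)

noncomputable def cst : R →ₗ[K] K := (LinearMap.fst K K _) ∘ₗ A.Φ.symm.toLinearMap
noncomputable def lin : R →ₗ[K] (Fin n → K) :=
  (LinearMap.fst K _ _) ∘ₗ (LinearMap.snd K K _) ∘ₗ A.Φ.symm.toLinearMap
noncomputable def quad : R →ₗ[K] (Fin m → K) :=
  (LinearMap.snd K _ _) ∘ₗ (LinearMap.snd K K _) ∘ₗ A.Φ.symm.toLinearMap

theorem eta (r : R) : A.Φ (A.cst r, A.lin r, A.quad r) = r := by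
  have h : (A.cst r, A.lin r, A.quad r) = A.Φ.symm r := rfl
  rw [h, LinearEquiv.apply_symm_apply]

@[simp] theorem cst_Φ (x) : A.cst (A.Φ x) = x.1 := by simp [cst]
@[simp] theorem lin_Φ (x) : A.lin (A.Φ x) = x.2.1 := by simp [lin]
@[simp] theorem quad_Φ (x) : A.quad (A.Φ x) = x.2.2 := by simp [quad]

theorem ext {r s : R} (h0 : A.cst r = A.cst s) (h1 : A.lin r = A.lin s)
    (h2 : A.quad r = A.quad s) : r = s := by
  rw [← A.eta r, ← A.eta s, h0, h1, h2]

theorem ξ_mul (l : Fin n) (r : R) :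
    A.ξ l * r = A.Φ (0, Pi.single l (A.cst r), fun j => ∑ q, c j l q * A.lin r q) := by
  conv_lhs => rw [← A.eta r, A.Φ_eq]
  rw [A.Φ_eq, mul_add, mul_add, map_zero, zero_add]
  have h1 : A.ξ l * algebraMap K R (A.cst r) = ∑ p, (Pi.single l (A.cst r) : Fin n → K) p • A.ξ p := by
    rw [Finset.sum_eq_single l]
    · rw [Pi.single_eq_same, Algebra.smul_def, mul_comm]
    · intro b _ hb; rw [Pi.single_eq_of_ne hb, zero_smul]
    · simp
  have h2 : A.ξ l * ∑ q, A.lin r q • A.ξ q = ∑ j, (∑ q, c j l q * A.lin r q) • A.e j := by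
    simp only [Finset.mul_sum, mul_smul_comm, A.ξξ, Finset.smul_sum, Finset.sum_smul, smul_smul]
    rw [Finset.sum_comm]
    apply Finset.sum_congr rfl; intro j _
    apply Finset.sum_congr rfl; intro q _
    rw [mul_comm]
  have h3 : A.ξ l * ∑ j, A.quad r j • A.e j = 0 := by
    simp only [Finset.mul_sum, mul_smul_comm, A.ξe, smul_zero, Finset.sum_const_zero]
  rw [h1, h2, h3, add_zero]

@[simp] theorem cst_ξ_mul (l : Fin n) (r : R) : A.cst (A.ξ l * r) = 0 := by
  rw [ξ_mul, cst_Φ]

@[simp] theorem lin_ξ_mul (l : Fin n) (r : R) : A.lin (A.ξ l * r) = Pi.single l (A.cst r) := by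
  rw [ξ_mul, lin_Φ]

@[simp] theorem quad_ξ_mul (l : Fin n) (r : R) :
    A.quad (A.ξ l * r) = fun j => ∑ q, c j l q * A.lin r q := by
  rw [ξ_mul, quad_Φ]

include A in
theorem c_symm (j : Fin m) (p q : Fin n) : c j p q = c j q p := by
  have h1 : A.quad (A.ξ p * A.ξ q) = fun j => c j p q := by
    rw [A.ξξ]
    have : ∑ j, c j p q • A.e j = A.Φ (0, 0, fun j => c j p q) := by
      rw [A.Φ_eq]; simp
    rw [this, quad_Φ]
  have h2 : A.quad (A.ξ q * A.ξ p) = fun j => c j q p := by
    rw [A.ξξ]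
    have : ∑ j, c j q p • A.e j = A.Φ (0, 0, fun j => c j q p) := by
      rw [A.Φ_eq]; simp
    rw [this, quad_Φ]
  rw [mul_comm, h2] at h1
  exact (congrFun h1 j).symm

/-- A linear resolution of the residue field, in coordinates. -/
structure LinRes (b : ℕ → ℕ) (D : ∀ k, Fin n → Fin (b k) → Fin (b (k + 1)) → K) : Prop where
  b0 : b 0 = 1
  ex0 : ∀ v : Fin (b 0) → R, (∀ i, A.cst (v i) = 0) →
    ∃ w : Fin (b 1) → R, ∀ i, ∑ a, ∑ l, D 0 l i a • (A.ξ l * w a) = v i
  ex : ∀ k (v : Fin (b (k + 1)) → R), (∀ i, ∑ a, ∑ l, D k l i a • (A.ξ l * v a) = 0) ↔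
    ∃ w : Fin (b (k + 2)) → R, ∀ i, ∑ a, ∑ l, D (k + 1) l i a • (A.ξ l * w a) = v i

variable {A} {b : ℕ → ℕ} {D : ∀ k, Fin n → Fin (b k) → Fin (b (k + 1)) → K}

/-- `R₁ ⊗ V_{k+1} → R₂ ⊗ V_k` -/
def mA (c : Fin m → Fin n → Fin n → K) (D : ∀ k, Fin n → Fin (b k) → Fin (b (k + 1)) → K) (k : ℕ) :
    Matrix (Fin m × Fin (b k)) (Fin n × Fin (b (k + 1))) K :=
  fun x y => ∑ l, D k l x.2 y.2 * c x.1 l y.1

/-- `V_{k+1} → R₁ ⊗ V_k` -/
def mB (D : ∀ k, Fin n → Fin (b k) → Fin (b (k + 1)) → K) (k : ℕ) :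
    Matrix (Fin n × Fin (b k)) (Fin (b (k + 1))) K :=
  fun x y => D k x.1 x.2 y

section coords
variable (A)

theorem cst_d (k : ℕ) (v : Fin (b (k + 1)) → R) (i : Fin (b k)) :
    A.cst (∑ a, ∑ l, D k l i a • (A.ξ l * v a)) = 0 := by
  simp only [map_sum, map_smul, cst_ξ_mul, smul_zero, Finset.sum_const_zero]

theorem lin_d (k : ℕ) (v : Fin (b (k + 1)) → R) (i : Fin (b k)) (l : Fin n) :
    A.lin (∑ a, ∑ l, D k l i a • (A.ξ l * v a)) l = (mB D k).mulVec (fun a => A.cst (v a)) (l, i) := by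
  simp only [map_sum, map_smul, lin_ξ_mul, Finset.sum_apply, Pi.smul_apply, smul_eq_mul, mB,
    Matrix.mulVec, dotProduct]
  apply Finset.sum_congr rfl; intro a _
  rw [Finset.sum_eq_single l]
  · simp
  · intro q _ hq; rw [Pi.single_eq_of_ne (Ne.symm hq), mul_zero]
  · simp

theorem quad_d (k : ℕ) (v : Fin (b (k + 1)) → R) (i : Fin (b k)) (j : Fin m) :
    A.quad (∑ a, ∑ l, D k l i a • (A.ξ l * v a)) j =
      (mA c D k).mulVec (fun y => A.lin (v y.2) y.1) (j, i) := by
  simp only [map_sum, map_smul, quad_ξ_mul, Finset.sum_apply, Pi.smul_apply, smul_eq_mul, mA,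
    Matrix.mulVec, dotProduct, Fintype.sum_prod_type]
  rw [Finset.sum_comm]
  conv_rhs => rw [Finset.sum_comm]
  rw [Finset.sum_comm]
  apply Finset.sum_congr rfl; intro a _
  simp only [Finset.mul_sum, Finset.sum_mul]
  rw [Finset.sum_comm]
  apply Finset.sum_congr rfl; intro q _
  apply Finset.sum_congr rfl; intro l _
  ring

end coords

theorem LinRes.B_inj (h : A.LinRes b D) (k : ℕ) (a : Fin (b (k + 1)) → K)
    (ha : (mB D k).mulVec a = 0) : a = 0 := by
  have h1 : ∀ i, ∑ x, ∑ l, D k l i x • (A.ξ l * A.Φ (a x, 0, 0)) = 0 := by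
    intro i
    apply A.ext
    · rw [cst_d]; simp
    · funext l
      rw [lin_d]
      simp only [cst_Φ, map_zero, Pi.zero_apply]
      exact congrFun ha (l, i)
    · funext j
      rw [quad_d]
      simp only [lin_Φ, map_zero, Pi.zero_apply]
      have : (fun y : Fin n × Fin (b (k + 1)) => (0 : K)) = 0 := rfl
      rw [this, Matrix.mulVec_zero]
      rfl
  obtain ⟨w, hw⟩ := (h.ex k (fun x => A.Φ (a x, 0, 0))).mp h1
  funext x
  have h2 := congrArg A.cst (hw x)
  rw [cst_d] at h2
  simpa using h2.symm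

theorem LinRes.B0_surj (h : A.LinRes b D) (y : Fin n × Fin (b 0) → K) :
    ∃ a, (mB D 0).mulVec a = y := by
  obtain ⟨w, hw⟩ := h.ex0 (fun i => A.Φ (0, fun l => y (l, i), 0)) (fun i => by simp)
  refine ⟨fun a => A.cst (w a), ?_⟩
  funext x
  obtain ⟨l, i⟩ := x
  have h2 := congrFun (congrArg A.lin (hw i)) l
  rw [lin_d] at h2
  simpa using h2

theorem LinRes.exact (h : A.LinRes b D) (k : ℕ) (y : Fin n × Fin (b (k + 1)) → K) :
    (mA c D k).mulVec y = 0 ↔ ∃ a, (mB D (k + 1)).mulVec a = y := by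
  constructor
  · intro hy
    have h1 : ∀ i, ∑ a, ∑ l, D k l i a • (A.ξ l * A.Φ (0, fun q => y (q, a), 0)) = 0 := by
      intro i
      apply A.ext
      · rw [cst_d]; simp
      · funext l
        rw [lin_d]
        simp only [cst_Φ, map_zero, Pi.zero_apply]
        have : (fun y : Fin (b (k + 1)) => (0 : K)) = 0 := rfl
        rw [this, Matrix.mulVec_zero]
        rfl
      · funext j
        rw [quad_d]
        simp only [lin_Φ, map_zero, Pi.zero_apply]
        exact congrFun hy (j, i)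
    obtain ⟨w, hw⟩ := (h.ex k (fun a => A.Φ (0, fun q => y (q, a), 0))).mp h1
    refine ⟨fun a => A.cst (w a), ?_⟩
    funext x
    obtain ⟨l, i⟩ := x
    have h2 := congrFun (congrArg A.lin (hw i)) l
    rw [lin_d] at h2
    simpa using h2
  · rintro ⟨a, rfl⟩
    have h1 := (h.ex k (fun i => ∑ x, ∑ l, D (k + 1) l i x • (A.ξ l * A.Φ (a x, 0, 0)))).mpr
      ⟨fun x => A.Φ (a x, 0, 0), fun i => rfl⟩
    funext z
    obtain ⟨j, i⟩ := z
    have h2 := congrFun (congrArg A.quad (h1 i)) j
    rw [quad_d] at h2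
    rw [map_zero] at h2
    have h3 : (fun y : Fin n × Fin (b (k + 1)) =>
        A.lin (∑ x, ∑ l, D (k + 1) l y.2 x • (A.ξ l * A.Φ (a x, 0, 0))) y.1) =
        (mB D (k + 1)).mulVec a := by
      funext y
      rw [lin_d]
      simp
    rw [h3] at h2
    exact h2

theorem LinRes.A_surj (h : A.LinRes b D) (k : ℕ) (z : Fin m × Fin (b k) → K) :
    ∃ y, (mA c D k).mulVec y = z := by
  have h1 : ∃ w : Fin (b (k + 1)) → R, ∀ i, ∑ a, ∑ l, D k l i a • (A.ξ l * w a) =
      A.Φ (0, 0, fun j => z (j, i)) := by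
    cases k with
    | zero => exact h.ex0 (fun i => A.Φ (0, 0, fun j => z (j, i))) (fun i => by simp)
    | succ k =>
      apply (h.ex k (fun i => A.Φ (0, 0, fun j => z (j, i)))).mp
      intro i
      apply A.ext
      · rw [cst_d]; simp
      · funext l
        rw [lin_d]
        simp only [cst_Φ, map_zero, Pi.zero_apply]
        have : (fun y : Fin (b (k + 1)) => (0 : K)) = 0 := rfl
        rw [this, Matrix.mulVec_zero]
        rfl
      · funext j
        rw [quad_d]
        simp only [lin_Φ, map_zero, Pi.zero_apply]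
        have : (fun y : Fin n × Fin (b (k + 1)) => (0 : K)) = 0 := rfl
        rw [this, Matrix.mulVec_zero]
        rfl
  obtain ⟨w, hw⟩ := h1
  refine ⟨fun y => A.lin (w y.2) y.1, ?_⟩
  funext x
  obtain ⟨j, i⟩ := x
  have h2 := congrFun (congrArg A.quad (hw i)) j
  rw [quad_d] at h2
  simpa using h2

/-- the transposed operators -/
noncomputable def xop (D : ∀ k, Fin n → Fin (b k) → Fin (b (k + 1)) → K) (j : ℕ) (l : Fin n) :
    (Fin (b j) → K) →ₗ[K] (Fin (b (j + 1)) → K) :=
  (Matrix.of fun (x : Fin (b (j + 1))) (a : Fin (b j)) => D j l a x).mulVecLin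

theorem xop_apply (j : ℕ) (l : Fin n) (f : Fin (b j) → K) (x : Fin (b (j + 1))) :
    xop D j l f x = ∑ a, D j l a x * f a := rfl

theorem mBT (j : ℕ) (f : Fin n → Fin (b j) → K) :
    (mB D j).transpose.mulVec (fun y => f y.1 y.2) = ∑ l, xop D j l (f l) := by
  funext x
  simp only [Matrix.mulVec, dotProduct, Matrix.transpose_apply, mB, Fintype.sum_prod_type,
    Finset.sum_apply, xop_apply]

theorem mAT (hc : ∀ j p q, c j p q = c j q p) (j : ℕ) (g : Fin m → Fin (b j) → K)
    (l : Fin n) (x : Fin (b (j + 1))) :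
    (mA c D j).transpose.mulVec (fun y => g y.1 y.2) (l, x) =
      (∑ i, ∑ p, c i l p • xop D j p (g i)) x := by
  simp only [Matrix.mulVec, dotProduct, Matrix.transpose_apply, mA, Fintype.sum_prod_type,
    Finset.sum_apply, xop_apply, Pi.smul_apply, smul_eq_mul, Finset.mul_sum, Finset.sum_mul]
  apply Finset.sum_congr rfl; intro i _
  rw [Finset.sum_comm]
  apply Finset.sum_congr rfl; intro p _
  apply Finset.sum_congr rfl; intro a _
  rw [hc i l p]
  ring

/-- From a linear resolution to the strands. -/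
noncomputable def LinRes.toStrands (h : A.LinRes b D) : Strands K n m c where
  b := b
  b0 := h.b0
  x := xop D
  surj j w := by
    obtain ⟨u, hu⟩ := mat_surj_of_inj (mB D j) (h.B_inj j) w
    refine ⟨fun l a => u (l, a), ?_⟩
    rw [← mBT]
    exact hu
  ker0 f hf := by
    have h1 := mat_inj_of_surj (mB D 0) h.B0_surj (fun y => f y.1 y.2) (by rw [mBT]; exact hf)
    funext l a
    exact congrFun h1 (l, a)
  ker j f hf := by
    obtain ⟨w, hw⟩ := mat_exact (mA c D j) (mB D (j + 1)) (h.exact j) (fun y => f y.1 y.2)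
      (by rw [mBT]; exact hf)
    refine ⟨fun i a => w (i, a), fun l => ?_⟩
    funext x
    rw [← mAT A.c_symm]
    exact (congrFun hw (l, x)).symm
  sq j i v := by
    funext x
    have h1 := (h.exact j ((mB D (j + 1)).mulVec (Pi.single x 1))).mpr ⟨_, rfl⟩
    have h2 : ∀ a, (∑ p, ∑ y, (∑ l, D j l a y * c i l p) * D (j + 1) p y x) = 0 := by
      intro a
      have h3 := congrFun h1 (i, a)
      simp only [Matrix.mulVec, dotProduct, Fintype.sum_prod_type, mA, mB, Pi.zero_apply] at h3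
      rw [← h3]
      apply Finset.sum_congr rfl; intro p _
      apply Finset.sum_congr rfl; intro y _
      congr 1
      rw [Finset.sum_eq_single x]
      · simp
      · intro z _ hz; rw [Pi.single_eq_of_ne hz, mul_zero]
      · simp
    simp only [Finset.sum_apply, Pi.smul_apply, smul_eq_mul, xop_apply, Pi.zero_apply]
    have h4 : ∑ p, ∑ q, c i p q * ∑ y, D (j + 1) p y x * ∑ a, D j q a y * v a =
        ∑ a, (∑ p, ∑ y, (∑ l, D j l a y * c i l p) * D (j + 1) p y x) * v a := by
      simp only [Finset.mul_sum, Finset.sum_mul]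
      have h5 : ∀ p, ∑ q, ∑ y, ∑ a, c i p q * (D (j + 1) p y x * (D j q a y * v a)) =
          ∑ a, ∑ y, ∑ q, c i p q * (D (j + 1) p y x * (D j q a y * v a)) := by
        intro p
        rw [Finset.sum_congr rfl (fun q _ => Finset.sum_comm)]
        rw [Finset.sum_comm]
        apply Finset.sum_congr rfl; intro a _
        rw [Finset.sum_comm]
      rw [Finset.sum_congr rfl (fun p _ => h5 p), Finset.sum_comm]
      apply Finset.sum_congr rfl; intro a _
      apply Finset.sum_congr rfl; intro p _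
      apply Finset.sum_congr rfl; intro y _
      apply Finset.sum_congr rfl; intro q _
      rw [A.c_symm i p q]
      ring
    rw [h4]
    apply Finset.sum_eq_zero; intro a _
    rw [h2 a, zero_mul]
  inj j g hg := by
    have h1 := mat_inj_of_surj (mA c D j) (h.A_surj j) (fun y => g y.1 y.2) (by
      funext y
      obtain ⟨l, x⟩ := y
      rw [mAT A.c_symm]
      exact congrFun (hg l) x)
    funext i a
    exact congrFun h1 (i, a)

end Short

end Pool.Agent.H17.Kz
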