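import Pool.Agent.H17.KzExact
import Pool.Agent.H17.KzQuot

/-!
# Koszul homology and minimal free resolutions
-/

open Finset BigOperators

namespace Pool.Agent.H17.Kz

section abstract_
variable {K : Type*} [Field K]

theorem finrank_common {P A B : Type*} [AddCommGroup P] [Module K P] [AddCommGroup A] [Module K A]
    [AddCommGroup B] [Module K B] (α : P →ₗ[K] A) (β : P →ₗ[K] B) (hα : Function.Surjective α)
    (hβ : Function.Surjective β) (h : LinearMap.ker α = LinearMap.ker β) :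
    Module.finrank K A = Module.finrank K B := by
  have e1 := LinearMap.quotKerEquivOfSurjective α hα
  have e2 := LinearMap.quotKerEquivOfSurjective β hβ
  rw [← LinearEquiv.finrank_eq e1, ← LinearEquiv.finrank_eq e2, h]

/-- the connecting isomorphism -/
theorem shift_abs {A1 A0 C2 C1 C0 D2 D1 D0 : Type*}
    [AddCommGroup A1] [Module K A1] [AddCommGroup A0] [Module K A0]
    [AddCommGroup C2] [Module K C2] [AddCommGroup C1] [Module K C1] [AddCommGroup C0] [Module K C0]
    [AddCommGroup D2] [Module K D2] [AddCommGroup D1] [Module K D1] [AddCommGroup D0] [Module K D0]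
    (dA : A1 →ₗ[K] A0) (dC2 : C2 →ₗ[K] C1) (dC1 : C1 →ₗ[K] C0) (dD2 : D2 →ₗ[K] D1)
    (dD1 : D1 →ₗ[K] D0) (ι1 : A1 →ₗ[K] C1) (ι0 : A0 →ₗ[K] C0) (π2 : C2 →ₗ[K] D2)
    (π1 : C1 →ₗ[K] D1) (π0 : C0 →ₗ[K] D0) (Z : Submodule K A0)
    (cι : ∀ a, ι0 (dA a) = dC1 (ι1 a)) (cπ2 : ∀ c, π1 (dC2 c) = dD2 (π2 c))
    (cπ1 : ∀ c, π0 (dC1 c) = dD1 (π1 c)) (dd : ∀ c, dC1 (dC2 c) = 0)
    (ex0 : ∀ c, π0 c = 0 → ∃ a, ι0 a = c) (ex0' : ∀ a, π0 (ι0 a) = 0)
    (inj0 : Function.Injective ι0)
    (ex1 : ∀ c, π1 c = 0 → ∃ a, ι1 a = c) (ex1' : ∀ a, π1 (ι1 a) = 0)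
    (sur1 : Function.Surjective π1) (sur2 : Function.Surjective π2)
    (exC : ∀ c, dC1 c = 0 → ∃ b, dC2 b = c)
    (hZ : ∀ c a, ι0 a = dC1 c → a ∈ Z) (hZ2 : ∀ a ∈ Z, ∃ c, dC1 c = ι0 a) :
    Module.finrank K (Z ⧸ (LinearMap.range dA).submoduleOf Z) =
      Module.finrank K (LinearMap.ker dD1 ⧸ (LinearMap.range dD2).submoduleOf (LinearMap.ker dD1)) := by
  obtain ⟨t, ht⟩ := LinearMap.exists_leftInverse_of_injective ι0 (LinearMap.ker_eq_bot.mpr inj0)
  have ht' : ∀ a, t (ι0 a) = a := fun a => by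
    have := congrArg (fun f => f a) ht
    simpa using this
  let P : Submodule K C1 := LinearMap.ker (π0 ∘ₗ dC1)
  have hP : ∀ b : P, ∃ a, ι0 a = dC1 b := fun b => ex0 _ b.2
  have hPt : ∀ b : P, ι0 (t (dC1 b)) = dC1 b := by
    intro b
    obtain ⟨a, ha⟩ := hP b
    rw [← ha, ht']
  let α0 : P →ₗ[K] Z := LinearMap.codRestrict Z (t ∘ₗ dC1 ∘ₗ P.subtype)
    (fun b => hZ b _ (hPt b))
  let β0 : P →ₗ[K] LinearMap.ker dD1 := LinearMap.codRestrict _ (π1 ∘ₗ P.subtype)
    (fun b => by
      have h := b.2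
      simp only [P, LinearMap.mem_ker, LinearMap.comp_apply] at h
      rw [cπ1] at h
      exact h)
  refine finrank_common ((Submodule.mkQ _) ∘ₗ α0) ((Submodule.mkQ _) ∘ₗ β0) ?_ ?_ ?_
  · intro x
    obtain ⟨a, rfl⟩ := Submodule.mkQ_surjective _ x
    obtain ⟨c, hc⟩ := hZ2 a a.2
    have hcP : c ∈ P := by
      simp only [P, LinearMap.mem_ker, LinearMap.comp_apply]
      rw [hc, ex0']
    refine ⟨⟨c, hcP⟩, ?_⟩
    simp only [LinearMap.comp_apply]
    congr 1
    apply Subtype.ext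
    show t (dC1 c) = a
    rw [hc, ht']
  · intro x
    obtain ⟨a, rfl⟩ := Submodule.mkQ_surjective _ x
    obtain ⟨c, hc⟩ := sur1 a
    have hcP : c ∈ P := by
      simp only [P, LinearMap.mem_ker, LinearMap.comp_apply]
      rw [cπ1, hc]
      exact a.2
    refine ⟨⟨c, hcP⟩, ?_⟩
    simp only [LinearMap.comp_apply]
    congr 1
    apply Subtype.ext
    exact hc
  · ext b
    rw [LinearMap.mem_ker, LinearMap.mem_ker, LinearMap.comp_apply, LinearMap.comp_apply,
      Submodule.mkQ_apply, Submodule.mkQ_apply, Submodule.Quotient.mk_eq_zero,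
      Submodule.Quotient.mk_eq_zero]
    show t (dC1 b) ∈ LinearMap.range dA ↔ π1 b ∈ LinearMap.range dD2
    constructor
    · rintro ⟨a, ha⟩
      have h1 : dC1 (ι1 a) = dC1 b := by
        rw [← cι, ha, hPt]
      obtain ⟨e, he⟩ := exC (b - ι1 a) (by rw [map_sub, h1, sub_self])
      refine ⟨π2 e, ?_⟩
      rw [← cπ2, he, map_sub, ex1', sub_zero]
    · rintro ⟨d, hd⟩
      obtain ⟨e, rfl⟩ := sur2 d
      rw [← cπ2] at hd
      obtain ⟨a, ha⟩ := ex1 (b - dC2 e) (by rw [map_sub, hd, sub_self])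
      refine ⟨a, ?_⟩
      have h1 : dC1 (b : C1) = ι0 (dA a) := by
        rw [cι, ha, map_sub, dd, sub_zero]
      rw [h1, ht']

theorem finrank_top_quot {V : Type*} [AddCommGroup V] [Module K V] (B : Submodule K V) :
    Module.finrank K (V ⧸ B) =
      Module.finrank K ((⊤ : Submodule K V) ⧸ B.submoduleOf (⊤ : Submodule K V)) := by
  refine finrank_common (P := V) (Submodule.mkQ _)
    ((Submodule.mkQ _) ∘ₗ (Submodule.topEquiv (R := K) (M := V)).symm.toLinearMap)
    (Submodule.mkQ_surjective _)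
    ((Submodule.mkQ_surjective _).comp (Submodule.topEquiv (R := K) (M := V)).symm.surjective) ?_
  ext b
  rw [LinearMap.mem_ker, LinearMap.mem_ker, LinearMap.comp_apply,
      Submodule.mkQ_apply, Submodule.mkQ_apply, Submodule.Quotient.mk_eq_zero,
      Submodule.Quotient.mk_eq_zero]
  rfl

end abstract_

section shift
variable {K : Type*} [Field K] {n : ℕ} {S : Type*} [CommRing S] [Algebra K S]
variable {A F N : Type*} [AddCommGroup A] [Module K A] [Module S A] [IsScalarTower K S A]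
  [AddCommGroup F] [Module K F] [Module S F] [IsScalarTower K S F]
  [AddCommGroup N] [Module K N] [Module S N] [IsScalarTower K S N]

/-- composition of an alternating map with a linear map, as a linear map -/
noncomputable def cmp (i : ℕ) (g : F →ₗ[K] N) : KC K n F i →ₗ[K] KC K n N i where
  toFun c := g.compAlternatingMap c
  map_add' c c' := by ext v; simp
  map_smul' a c := by ext v; simp

theorem cmp_apply (i : ℕ) (g : F →ₗ[K] N) (c : KC K n F i) (v : Fin i → Fin n → K) :
    cmp i g c v = g (c v) := rfl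

theorem cmp_kdiff (ξ : Fin n → S) (i : ℕ) (g : F →ₗ[S] N) (c : KC K n F (i + 1)) :
    cmp i (g.restrictScalars K) (kdiff K ξ F i c) =
      kdiff K ξ N i (cmp (i + 1) (g.restrictScalars K) c) := by
  ext v
  rw [cmp_apply, kdiff_apply, kdiff_apply, map_sum]
  apply Finset.sum_congr rfl; intro k _
  rw [cmp_apply]
  exact map_smul g _ _

theorem cmp_surj (i : ℕ) (g : F →ₗ[K] N) (hg : Function.Surjective g) :
    Function.Surjective (cmp (n := n) i g) := by
  obtain ⟨s, hs⟩ := LinearMap.exists_rightInverse_of_surjective g (LinearMap.range_eq_top.mpr hg)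
  intro c
  refine ⟨cmp i s c, ?_⟩
  ext v
  rw [cmp_apply, cmp_apply]
  exact congrArg (fun f => f (c v)) hs

theorem cmp_inj (i : ℕ) (g : F →ₗ[K] N) (hg : Function.Injective g) :
    Function.Injective (cmp (n := n) i g) := by
  intro c c' h
  ext v
  apply hg
  have := congrArg (fun f => f v) h
  exact this

theorem cmp_exact (i : ℕ) (ι : A →ₗ[K] F) (π : F →ₗ[K] N) (hι : Function.Injective ι)
    (hex : ∀ f, π f = 0 → ∃ a, ι a = f) (c : KC K n F i) (hc : cmp i π c = 0) :
    ∃ a, cmp i ι a = c := by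
  obtain ⟨t, ht⟩ := LinearMap.exists_leftInverse_of_injective ι (LinearMap.ker_eq_bot.mpr hι)
  have ht' : ∀ a, t (ι a) = a := fun a => by
    have := congrArg (fun f => f a) ht
    simpa using this
  refine ⟨cmp i t c, ?_⟩
  ext v
  rw [cmp_apply, cmp_apply]
  obtain ⟨a, ha⟩ := hex (c v) (congrArg (fun f => f v) hc)
  rw [← ha, ht']

/-- **Shift lemma.** -/
theorem hdim_shift (ξ : Fin n → S) (Q : DivOp K ξ F) (ι : A →ₗ[S] F) (π : F →ₗ[S] N)
    (hι : Function.Injective ι) (hπ : Function.Surjective π)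
    (hex : ∀ f, π f = 0 ↔ ∃ a, ι a = f)
    (hmin : ∀ a, ∃ b : Fin n → F, ι a = ∑ k, ξ k • b k) (i : ℕ) :
    hdim K ξ A i = hdim K ξ N (i + 1) := by
  have hιK : Function.Injective (ι.restrictScalars K) := hι
  have hπK : Function.Surjective (π.restrictScalars K) := hπ
  have hexK : ∀ f, (π.restrictScalars K) f = 0 → ∃ a, (ι.restrictScalars K) a = f :=
    fun f hf => (hex f).mp hf
  have hexK' : ∀ a, (π.restrictScalars K) ((ι.restrictScalars K) a) = 0 :=
    fun a => (hex _).mpr ⟨a, rfl⟩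
  have key : ∀ Z : Submodule K (KC K n A i),
      (∀ (c : KC K n F (i + 1)) a, cmp i (ι.restrictScalars K) a = kdiff K ξ F i c → a ∈ Z) →
      (∀ a ∈ Z, ∃ c, kdiff K ξ F i c = cmp i (ι.restrictScalars K) a) →
      Module.finrank K (Z ⧸ (LinearMap.range (kdiff K ξ A i)).submoduleOf Z) =
        hdim K ξ N (i + 1) := by
    intro Z hZ hZ2
    exact shift_abs (kdiff K ξ A i) (kdiff K ξ F (i + 1)) (kdiff K ξ F i) (kdiff K ξ N (i + 1))
      (kdiff K ξ N i) (cmp (i + 1) (ι.restrictScalars K)) (cmp i (ι.restrictScalars K))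
      (cmp (i + 2) (π.restrictScalars K)) (cmp (i + 1) (π.restrictScalars K))
      (cmp i (π.restrictScalars K)) Z
      (fun a => cmp_kdiff ξ i ι a) (fun c => cmp_kdiff ξ (i + 1) π c) (fun c => cmp_kdiff ξ i π c)
      (fun c => kdiff_kdiff ξ i c)
      (fun c hc => cmp_exact i _ _ hιK hexK c hc)
      (fun a => by ext v; exact hexK' _)
      (cmp_inj i _ hιK)
      (fun c hc => cmp_exact (i + 1) _ _ hιK hexK c hc)
      (fun a => by ext v; exact hexK' _)
      (cmp_surj (i + 1) _ hπK) (cmp_surj (i + 2) _ hπK)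
      (fun c hc => koszul_exact Q c hc) hZ hZ2
  cases i with
  | zero =>
    have h0 : hdim K ξ A 0 = Module.finrank K (KC K n A 0 ⧸ LinearMap.range (kdiff K ξ A 0)) := rfl
    rw [h0, finrank_top_quot]
    apply key ⊤
    · intro c a _; trivial
    · intro a _
      obtain ⟨b, hb⟩ := hmin (a ![])
      refine ⟨∑ k, we k ((LinearMap.toSpanSingleton K F (b k)).compAlternatingMap
        (AlternatingMap.constOfIsEmpty K (Fin n → K) (Fin 0) (1 : K))), ?_⟩
      rw [map_sum]
      ext v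
      have hv : v = ![] := Subsingleton.elim _ _
      subst hv
      rw [cmp_apply]
      show _ = ι (a ![])
      rw [hb, alt_sum_apply]
      apply Finset.sum_congr rfl; intro k _
      rw [kdiff_io, alt_sum_apply]
      rw [Finset.sum_eq_single k]
      · rw [AlternatingMap.smul_apply, io_we0, if_pos rfl]
        simp
      · intro l _ hl
        rw [AlternatingMap.smul_apply, io_we0, if_neg hl]
        simp
      · intro h; exact absurd (Finset.mem_univ _) h
  | succ i =>
    have h0 : hdim K ξ A (i + 1) = Module.finrank K (LinearMap.ker (kdiff K ξ A i) ⧸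
      (LinearMap.range (kdiff K ξ A (i + 1))).submoduleOf (LinearMap.ker (kdiff K ξ A i))) := rfl
    rw [h0]
    apply key
    · intro c a hca
      rw [LinearMap.mem_ker]
      apply cmp_inj i _ hιK
      rw [cmp_kdiff, hca, kdiff_kdiff, map_zero]
    · intro a ha
      rw [LinearMap.mem_ker] at ha
      apply koszul_exact Q
      rw [← cmp_kdiff, ha, map_zero]

end shift

end Pool.Agent.H17.Kz
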