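import Pool.Agent.H17.KzCore

open Finset BigOperators

namespace Pool.Agent.H17.Kz

variable {K : Type*} [Field K] {n m : ℕ} {c : Fin m → Fin n → Fin n → K}
  {V : Type*} [AddCommGroup V] [Module K V]

namespace KDat

variable (S : KDat K n m c V)

/-- `pop` as a linear map in `u` -/
noncomputable def popL (φ : Fin m → Fin n → Fin n → K) (i : Fin n) : V →ₗ[K] V where
  toFun u := S.pop φ i u
  map_add' u v := by
    unfold pop Vop
    simp only [map_add, smul_add, Finset.sum_add_distrib]
  map_smul' a u := by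
    unfold pop Vop
    simp only [map_smul, map_sum, RingHom.id_apply, Finset.smul_sum]
    apply Finset.sum_congr rfl; intro j _
    apply Finset.sum_congr rfl; intro l _
    apply Finset.sum_congr rfl; intro p _
    apply Finset.sum_congr rfl; intro q _
    simp only [smul_smul]
    congr 1
    ring

@[simp] theorem popL_apply (φ : Fin m → Fin n → Fin n → K) (i : Fin n) (u : V) :
    S.popL φ i u = S.pop φ i u := rfl

/-- the multiplication map on symmetric families -/
noncomputable def mu (N : Submodule K V) : (Sym2 (Fin n) → N) →ₗ[K] V where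
  toFun f := ∑ i, ∑ k, S.X i (S.X k (f s(i, k) : V))
  map_add' f g := by
    simp only [Pi.add_apply, Submodule.coe_add, map_add, Finset.sum_add_distrib]
  map_smul' a f := by
    simp only [Pi.smul_apply, Submodule.coe_smul, map_smul, Finset.smul_sum, RingHom.id_apply]

theorem mu_apply (N : Submodule K V) (f : Sym2 (Fin n) → N) :
    S.mu N f = ∑ i, ∑ k, S.X i (S.X k (f s(i, k) : V)) := rfl

/-- the next space -/
noncomputable def nx (N : Submodule K V) : Submodule K V := LinearMap.range (S.mu N)

theorem nx_le {N : Submodule K V} (hN : N ≤ S.Nn) : S.nx N ≤ S.Nn := by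
  rintro _ ⟨f, rfl⟩
  rw [mu_apply]
  exact S.sym_mem (fun p q => (f s(p, q) : V)) (fun p q => by rw [Sym2.eq_swap])
    (fun p q => hN (f s(p, q)).2)

theorem sym_mem_nx {N : Submodule K V} (t : Fin n → Fin n → K) (ht : ∀ p q, t p q = t q p)
    (u : V) (hu : u ∈ N) : ∑ p, ∑ q, t p q • S.X p (S.X q u) ∈ S.nx N := by
  refine ⟨fun z => Sym2.lift ⟨fun p q => t p q • (⟨u, hu⟩ : N), fun p q => by
    show t p q • (⟨u, hu⟩ : N) = t q p • (⟨u, hu⟩ : N)
    rw [ht]⟩ z, ?_⟩
  rw [mu_apply]
  simp only [Sym2.lift_mk, Submodule.coe_smul, map_smul]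

theorem a_mem {N : Submodule K V} (hN : N ≤ S.Nn) (hc : ∀ j p q, c j p q = c j q p)
    {φ : Fin m → Fin n → Fin n → K}
    (hφ : φ ∈ DD c) (i k : Fin n) (u : V) (hu : u ∈ N) :
    S.d k (S.popL φ i u) ∈ S.nx N := by
  rw [popL_apply, S.d_pop hφ i k u (hN hu)]
  exact S.sym_mem_nx _ (tt_symm hc hφ i k) u hu

/-- the relation map -/
noncomputable def Psi {e : ℕ} (hc : ∀ j p q, c j p q = c j q p) (N : Submodule K V)
    (hN : N ≤ S.Nn) (φ : Fin e → DD c) :
    ((Fin m → S.nx N) × (Fin e → N)) →ₗ[K] (Sym2 (Fin n) → S.nx N) where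
  toFun x z := Sym2.lift ⟨fun i k => ∑ j, c j i k • x.1 j +
      ∑ t, (⟨S.d k (S.popL (φ t : Fin m → Fin n → Fin n → K) i (x.2 t : V)),
        S.a_mem hN hc (φ t).2 i k _ (x.2 t).2⟩ : S.nx N), fun i k => by
      apply Subtype.ext
      simp only [popL_apply, Submodule.coe_add, Submodule.coe_smul,
        AddSubmonoidClass.coe_finsetSum]
      have h1 : ∑ j, c j i k • (x.1 j : V) = ∑ j, c j k i • (x.1 j : V) := by
        apply Finset.sum_congr rfl; intro j _; rw [hc]
      have h2 : ∑ t, S.d k (S.pop (φ t : Fin m → Fin n → Fin n → K) i (x.2 t : V)) =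
          ∑ t, S.d i (S.pop (φ t : Fin m → Fin n → Fin n → K) k (x.2 t : V)) := by
        apply Finset.sum_congr rfl; intro t _
        exact S.a_symm hc (φ t).2 i k _ (hN (x.2 t).2)
      rw [h1, h2]⟩ z
  map_add' x y := by
    funext z
    induction z using Sym2.ind with
    | _ i k =>
      apply Subtype.ext
      simp only [Sym2.lift_mk, Prod.fst_add, Prod.snd_add, Pi.add_apply, smul_add,
        Finset.sum_add_distrib, Submodule.coe_add, AddSubmonoidClass.coe_finsetSum, map_add]
      abel
  map_smul' a x := by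
    funext z
    induction z using Sym2.ind with
    | _ i k =>
      apply Subtype.ext
      simp only [Sym2.lift_mk, Prod.smul_fst, Prod.smul_snd, Pi.smul_apply,
        Submodule.coe_add, Submodule.coe_smul, AddSubmonoidClass.coe_finsetSum, map_smul,
        RingHom.id_apply, smul_add, Finset.smul_sum]
      congr 1
      apply Finset.sum_congr rfl; intro j _
      rw [smul_comm]

theorem Psi_apply {e : ℕ} (hc : ∀ j p q, c j p q = c j q p) (N : Submodule K V)
    (hN : N ≤ S.Nn) (φ : Fin e → DD c) (x : (Fin m → S.nx N) × (Fin e → N)) (i k : Fin n) :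
    (S.Psi hc N hN φ x s(i, k) : V) = ∑ j, c j i k • (x.1 j : V) +
      ∑ t, S.d k (S.pop (φ t : Fin m → Fin n → Fin n → K) i (x.2 t : V)) := by
  simp only [Psi, LinearMap.coe_mk, AddHom.coe_mk, Sym2.lift_mk, Submodule.coe_add,
    Submodule.coe_smul, AddSubmonoidClass.coe_finsetSum, popL_apply]

theorem mu_Psi {e : ℕ} (hc : ∀ j p q, c j p q = c j q p) (N : Submodule K V)
    (hN : N ≤ S.Nn) (φ : Fin e → DD c) (x : (Fin m → S.nx N) × (Fin e → N)) :
    S.mu (S.nx N) (S.Psi hc N hN φ x) = 0 := by
  rw [mu_apply]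
  simp only [Psi_apply, map_add, map_sum, map_smul, Finset.sum_add_distrib]
  have h1 : ∑ i, ∑ k, ∑ j, c j i k • S.X i (S.X k (x.1 j : V)) = 0 := by
    have : ∑ i, ∑ k, ∑ j, c j i k • S.X i (S.X k (x.1 j : V)) =
        ∑ j, ∑ i, ∑ k, c j i k • S.X i (S.X k (x.1 j : V)) := by
      rw [Finset.sum_congr rfl (fun i _ => Finset.sum_comm)]
      rw [Finset.sum_comm]
    rw [this]
    exact Finset.sum_eq_zero (fun j _ => S.sq j _)
  rw [h1, zero_add]
  have h2 : ∑ i, ∑ k, ∑ t, S.X i (S.X k (S.d k (S.pop (φ t : Fin m → Fin n → Fin n → K) i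
      (x.2 t : V)))) =
      ∑ t, ∑ i, S.X i (S.pop (φ t : Fin m → Fin n → Fin n → K) i (x.2 t : V)) := by
    rw [Finset.sum_congr rfl (fun i _ => Finset.sum_comm)]
    rw [Finset.sum_comm]
    apply Finset.sum_congr rfl; intro t _
    apply Finset.sum_congr rfl; intro i _
    rw [← map_sum]
    congr 1
    conv_rhs => rw [S.pop_eq _ i]
    apply Finset.sum_congr rfl; intro k _
    rw [S.a_symm hc (φ t).2 i k _ (hN (x.2 t).2)]
  rw [h2]
  exact Finset.sum_eq_zero (fun t _ => S.sum_X_pop _ _)

theorem Psi_inj {e : ℕ} (hc : ∀ j p q, c j p q = c j q p) (N : Submodule K V)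
    (hN : N ≤ S.Nn) (φ : Fin e → DD c) (hφ : LinearIndependent K φ) :
    Function.Injective (S.Psi hc N hN φ) := by
  rw [← LinearMap.ker_eq_bot, LinearMap.ker_eq_bot']
  intro x hx
  have h0 : ∀ i k, ∑ j, c j i k • (x.1 j : V) +
      ∑ t, S.d k (S.pop (φ t : Fin m → Fin n → Fin n → K) i (x.2 t : V)) = 0 := by
    intro i k
    rw [← S.Psi_apply hc N hN φ x i k, hx]
    simp
  have h1 : ∀ j, (x.1 j : V) + ∑ t, S.Vop (φ t : Fin m → Fin n → Fin n → K) j (x.2 t : V) = 0 := by
    have h2 : (fun j => (x.1 j : V) + ∑ t, S.Vop (φ t : Fin m → Fin n → Fin n → K) j (x.2 t : V))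
        = 0 := by
      apply S.inj
      intro i
      have h3 : ∑ j, ∑ p, c j i p • S.X p ((x.1 j : V) +
          ∑ t, S.Vop (φ t : Fin m → Fin n → Fin n → K) j (x.2 t : V)) =
          ∑ k, S.X k (∑ j, c j i k • (x.1 j : V)) +
          ∑ t, S.pop (φ t : Fin m → Fin n → Fin n → K) i (x.2 t : V) := by
        simp only [map_add, map_sum, smul_add, Finset.sum_add_distrib, map_smul, Finset.smul_sum,
          pop]
        congr 1
        · rw [Finset.sum_comm]
        · rw [Finset.sum_congr rfl (fun j _ => Finset.sum_comm)]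
          rw [Finset.sum_comm]
      rw [h3]
      have h4 : ∑ t, S.pop (φ t : Fin m → Fin n → Fin n → K) i (x.2 t : V) =
          ∑ k, S.X k (∑ t, S.d k (S.pop (φ t : Fin m → Fin n → Fin n → K) i (x.2 t : V))) := by
        simp only [map_sum]
        rw [Finset.sum_comm]
        apply Finset.sum_congr rfl; intro t _
        conv_lhs => rw [S.pop_eq _ i]
        apply Finset.sum_congr rfl; intro k _
        rw [S.a_symm hc (φ t).2 i k _ (hN (x.2 t).2)]
      rw [h4, ← Finset.sum_add_distrib]
      apply Finset.sum_eq_zero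
      intro k _
      rw [← map_add, h0 i k, map_zero]
    intro j
    exact congrFun h2 j
  have h5 : ∀ j r s, ∑ t, (φ t : Fin m → Fin n → Fin n → K) j r s • (x.2 t : V) = 0 := by
    intro j r s
    have h6 := congrArg (fun v => S.d s (S.d r v)) (h1 j)
    simp only [map_add, map_sum, map_zero] at h6
    rw [S.nx_le hN (x.1 j).2 r, map_zero, zero_add] at h6
    rw [← h6]
    apply Finset.sum_congr rfl; intro t _
    have hu : (x.2 t : V) ∈ S.Nn := hN (x.2 t).2
    rw [S.d_Vop _ (φ t).2.1 (φ t).2.2.1 j _ hu r, map_sum]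
    have h7 : ∀ q, S.d s ((φ t : Fin m → Fin n → Fin n → K) j r q • S.X q (x.2 t : V)) =
        if s = q then (φ t : Fin m → Fin n → Fin n → K) j r q • (x.2 t : V) else 0 := by
      intro q
      rw [map_smul, S.cl, hu s, map_zero, sub_zero]
      split_ifs <;> simp
    rw [Finset.sum_congr rfl (fun q _ => h7 q)]
    simp
  have h8 : ∀ t, (x.2 t : V) = 0 := by
    intro t
    rw [← Module.forall_dual_apply_eq_zero_iff K]
    intro lam
    have h9 : ∑ s, lam (x.2 s : V) • φ s = 0 := by
      apply Subtype.ext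
      funext j r s
      have h10 := congrArg lam (h5 j r s)
      rw [map_sum, map_zero] at h10
      simp only [map_smul, smul_eq_mul] at h10
      simp only [AddSubmonoidClass.coe_finsetSum, Submodule.coe_smul, Finset.sum_apply,
        Pi.smul_apply, smul_eq_mul, ZeroMemClass.coe_zero, Pi.zero_apply]
      rw [← h10]
      apply Finset.sum_congr rfl; intro t _
      ring
    exact (Fintype.linearIndependent_iff.mp hφ) _ h9 t
  have h11 : ∀ j, (x.1 j : V) = 0 := by
    intro j
    have h12 := h1 j
    have h13 : ∑ t, S.Vop (φ t : Fin m → Fin n → Fin n → K) j (x.2 t : V) = 0 := by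
      apply Finset.sum_eq_zero
      intro t _
      rw [h8 t]
      unfold Vop
      simp
    rw [h13, add_zero] at h12
    exact h12
  apply Prod.ext
  · funext j; exact Subtype.ext (h11 j)
  · funext t; exact Subtype.ext (h8 t)

theorem growth_step (hc : ∀ j p q, c j p q = c j q p) (N : Submodule K V)
    (hN : N ≤ S.Nn) [FiniteDimensional K N] :
    Module.finrank K (DD c) * Module.finrank K N + Module.finrank K (S.nx (S.nx N)) +
      m * Module.finrank K (S.nx N) ≤ (n + 1).choose 2 * Module.finrank K (S.nx N) := by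
  have hfin : FiniteDimensional K (S.nx N) := by
    unfold nx; infer_instance
  let B := Module.finBasis K (DD c)
  have h1 := S.Psi_inj hc N hN (fun t => B t) B.linearIndependent
  have h2 := LinearMap.finrank_range_of_inj h1
  have h3 : LinearMap.range (S.Psi hc N hN (fun t => B t)) ≤ LinearMap.ker (S.mu (S.nx N)) := by
    rintro _ ⟨x, rfl⟩
    exact S.mu_Psi hc N hN _ x
  have h4 := Submodule.finrank_mono h3
  have h5 := LinearMap.finrank_range_add_finrank_ker (S.mu (S.nx N))
  have h6 : Module.finrank K (Sym2 (Fin n) → S.nx N) = (n + 1).choose 2 * Module.finrank K (S.nx N) := by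
    rw [Module.finrank_pi_fintype]
    simp [Sym2.card]
  have h7 : Module.finrank K ((Fin m → S.nx N) × (Fin (Module.finrank K (DD c)) → N)) =
      m * Module.finrank K (S.nx N) + Module.finrank K (DD c) * Module.finrank K N := by
    rw [Module.finrank_prod, Module.finrank_pi_fintype, Module.finrank_pi_fintype]
    simp
  have h8 : Module.finrank K (S.nx (S.nx N)) = Module.finrank K (LinearMap.range (S.mu (S.nx N))) := rfl
  rw [h2, h7] at h4
  rw [h6] at h5
  rw [h8]
  omega

/-- the sequence of spaces -/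
noncomputable def AA : ℕ → Submodule K V
  | 0 => Submodule.span K {S.v0}
  | k + 1 => S.nx (AA k)

theorem AA_le (k : ℕ) : S.AA k ≤ S.Nn := by
  induction k with
  | zero =>
    rw [AA, Submodule.span_singleton_le_iff_mem]
    exact S.dv0
  | succ k ih => exact S.nx_le ih

instance AA_fin (k : ℕ) : FiniteDimensional K (S.AA k) := by
  induction k with
  | zero => rw [AA]; infer_instance
  | succ k ih => rw [AA, nx]; infer_instance

include S in
/-- The Mantel type bound. -/
theorem mantel (hc : ∀ j p q, c j p q = c j q p) :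
    4 * Module.finrank K (DD c) ≤ ((n + 1).choose 2 - m) ^ 2 := by
  apply growth _ _ (fun k => Module.finrank K (S.AA k))
  · have : Module.finrank K (S.AA 0) = 1 := by
      show Module.finrank K (Submodule.span K {S.v0}) = 1
      exact finrank_span_singleton S.v0ne
    omega
  · intro k
    have h := S.growth_step hc (S.AA k) (S.AA_le k)
    show Module.finrank K (DD c) * Module.finrank K (S.AA k) + Module.finrank K (S.nx (S.nx (S.AA k)))
      ≤ ((n + 1).choose 2 - m) * Module.finrank K (S.nx (S.AA k))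
    rw [Nat.sub_mul]
    omega

end KDat

end Pool.Agent.H17.Kz
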