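import Pool.Agent.H17.KzStep

open Finset BigOperators

namespace Pool.Agent.H17.Kz

/-- The dual of a linear resolution of the residue field, strand by strand. -/
structure Strands (K : Type*) [Field K] (n m : ℕ) (c : Fin m → Fin n → Fin n → K) where
  b : ℕ → ℕ
  b0 : b 0 = 1
  x : ∀ j, Fin n → (Fin (b j) → K) →ₗ[K] (Fin (b (j + 1)) → K)
  surj : ∀ j (w : Fin (b (j + 1)) → K), ∃ f : Fin n → (Fin (b j) → K), ∑ l, x j l (f l) = w
  ker0 : ∀ f : Fin n → (Fin (b 0) → K), ∑ l, x 0 l (f l) = 0 → f = 0
  ker : ∀ j (f : Fin n → (Fin (b (j + 1)) → K)), ∑ l, x (j + 1) l (f l) = 0 →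
    ∃ g : Fin m → (Fin (b j) → K), ∀ l, f l = ∑ i, ∑ p, c i l p • x j p (g i)
  sq : ∀ j i (v : Fin (b j) → K), ∑ p, ∑ q, c i p q • x (j + 1) p (x j q v) = 0
  inj : ∀ j (g : Fin m → (Fin (b j) → K)),
    (∀ l, ∑ i, ∑ p, c i l p • x j p (g i) = 0) → g = 0

/-- factor `τ` through the surjection `σ` -/
noncomputable def liftOf {K A B C : Type*} [Field K] [AddCommGroup A] [Module K A]
    [AddCommGroup B] [Module K B] [AddCommGroup C] [Module K C] (σ : A →ₗ[K] B) (τ : A →ₗ[K] C) :
    B →ₗ[K] C :=
  open Classical in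
  if h : ∃ D : B →ₗ[K] C, D ∘ₗ σ = τ then h.choose else 0

theorem liftOf_spec {K A B C : Type*} [Field K] [AddCommGroup A] [Module K A]
    [AddCommGroup B] [Module K B] [AddCommGroup C] [Module K C] (σ : A →ₗ[K] B) (τ : A →ₗ[K] C)
    (hs : Function.Surjective σ) (hk : ∀ a, σ a = 0 → τ a = 0) (a : A) :
    liftOf σ τ (σ a) = τ a := by
  classical
  have h : ∃ D : B →ₗ[K] C, D ∘ₗ σ = τ := by
    obtain ⟨g, hg⟩ := σ.exists_rightInverse_of_surjective (LinearMap.range_eq_top.mpr hs)
    refine ⟨τ ∘ₗ g, ?_⟩
    ext a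
    have h1 : σ (g (σ a) - a) = 0 := by
      rw [map_sub, sub_eq_zero]
      exact LinearMap.congr_fun hg (σ a)
    have h2 := hk _ h1
    rw [map_sub, sub_eq_zero] at h2
    exact h2
  have h3 := LinearMap.congr_fun h.choose_spec a
  simp only [liftOf, dif_pos h]
  exact h3

variable {K : Type*} [Field K] {n m : ℕ} {c : Fin m → Fin n → Fin n → K}

namespace Strands

variable (T : Strands K n m c)

/-- the spaces -/
abbrev Vj (j : ℕ) : Type _ := Fin (T.b j) → K

noncomputable def sg (j : ℕ) : (Fin n → T.Vj j) →ₗ[K] T.Vj (j + 1) where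
  toFun f := ∑ l, T.x j l (f l)
  map_add' f g := by simp only [Pi.add_apply, map_add, Finset.sum_add_distrib]
  map_smul' a f := by simp only [Pi.smul_apply, map_smul, Finset.smul_sum, RingHom.id_apply]

theorem sg_apply (j : ℕ) (f : Fin n → T.Vj j) : T.sg j f = ∑ l, T.x j l (f l) := rfl

theorem sg_surj (j : ℕ) : Function.Surjective (T.sg j) := fun w => T.surj j w

noncomputable def tau0 (k : Fin n) : (Fin n → T.Vj 0) →ₗ[K] T.Vj 0 := LinearMap.proj k

noncomputable def tauS (k : Fin n) (j : ℕ) (D : T.Vj (j + 1) →ₗ[K] T.Vj j) :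
    (Fin n → T.Vj (j + 1)) →ₗ[K] T.Vj (j + 1) where
  toFun f := f k - ∑ l, T.x j l (D (f l))
  map_add' f g := by
    simp only [Pi.add_apply, map_add, Finset.sum_add_distrib]
    abel
  map_smul' a f := by
    simp only [Pi.smul_apply, map_smul, Finset.smul_sum, RingHom.id_apply, smul_sub]

theorem tauS_apply (k : Fin n) (j : ℕ) (D : T.Vj (j + 1) →ₗ[K] T.Vj j) (f : Fin n → T.Vj (j + 1)) :
    T.tauS k j D f = f k - ∑ l, T.x j l (D (f l)) := rfl

/-- the skew derivations -/
noncomputable def del (k : Fin n) : ∀ j, T.Vj (j + 1) →ₗ[K] T.Vj j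
  | 0 => liftOf (T.sg 0) (T.tau0 k)
  | j + 1 => liftOf (T.sg (j + 1)) (T.tauS k j (del k j))

/-- correction term -/
noncomputable def cor (k : Fin n) : ∀ j, Fin n → T.Vj j →ₗ[K] T.Vj j
  | 0 => fun _ => 0
  | j + 1 => fun p => T.x j p ∘ₗ T.del k j

theorem sum_cor (k : Fin n) (j : ℕ) (i : Fin m) (v : T.Vj j) :
    ∑ l, ∑ p, c i l p • T.x j l (T.cor k j p v) = 0 := by
  cases j with
  | zero => simp [cor]
  | succ j => exact T.sq j i (T.del k j v)

theorem sg_single (j : ℕ) (l : Fin n) (v : T.Vj j) : T.sg j (Pi.single l v) = T.x j l v := by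
  rw [sg_apply, Finset.sum_eq_single l]
  · simp
  · intro b _ hb; simp [Pi.single_eq_of_ne hb]
  · simp

theorem del_x (hc : ∀ j p q, c j p q = c j q p) (k : Fin n) (j : ℕ) :
    ∀ (l : Fin n) (v : T.Vj j),
      T.del k j (T.x j l v) = (if k = l then v else 0) - T.cor k j l v := by
  induction j with
  | zero =>
    intro l v
    have h1 : T.del k 0 (T.sg 0 (Pi.single l v)) = T.tau0 k (Pi.single l v) := by
      rw [del]
      apply liftOf_spec _ _ (T.sg_surj 0)
      intro a ha
      rw [T.ker0 a ha]
      simp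
    rw [T.sg_single] at h1
    rw [h1]
    simp only [tau0, LinearMap.coe_proj, Function.eval, cor, LinearMap.zero_apply, sub_zero]
    by_cases h : k = l
    · subst h; simp
    · rw [if_neg h, Pi.single_eq_of_ne h]
  | succ j ih =>
    intro l v
    have h1 : T.del k (j + 1) (T.sg (j + 1) (Pi.single l v)) =
        T.tauS k j (T.del k j) (Pi.single l v) := by
      rw [del]
      apply liftOf_spec _ _ (T.sg_surj (j + 1))
      intro f hf
      obtain ⟨g, hg⟩ := T.ker j f hf
      rw [tauS_apply, sub_eq_zero, hg k]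
      have h2 : ∀ l', T.x j l' (T.del k j (f l')) =
          ∑ i, (c i l' k • T.x j l' (g i) - ∑ p, c i l' p • T.x j l' (T.cor k j p (g i))) := by
        intro l'
        rw [hg l']
        simp only [map_sum, map_smul, ih]
        apply Finset.sum_congr rfl; intro i _
        simp only [map_sub, smul_sub, Finset.sum_sub_distrib]
        congr 1
        rw [Finset.sum_eq_single k]
        · simp
        · intro p _ hp
          rw [if_neg (Ne.symm hp)]
          simp
        · simp
      rw [Finset.sum_congr rfl (fun l' _ => h2 l')]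
      conv_rhs => rw [Finset.sum_comm]
      apply Finset.sum_congr rfl; intro i _
      rw [Finset.sum_sub_distrib, T.sum_cor k j i (g i), sub_zero]
      apply Finset.sum_congr rfl; intro p _
      rw [hc]
    rw [T.sg_single] at h1
    rw [h1, tauS_apply]
    congr 1
    · by_cases h : k = l
      · subst h; simp
      · rw [if_neg h, Pi.single_eq_of_ne h]
    · rw [Finset.sum_eq_single l]
      · simp [cor]
      · intro b _ hb; rw [Pi.single_eq_of_ne hb]; simp
      · simp

/-- total space -/
abbrev VV : Type _ := ∀ j, T.Vj j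

noncomputable def XX (l : Fin n) : T.VV →ₗ[K] T.VV where
  toFun v := fun j => match j with
    | 0 => 0
    | j + 1 => T.x j l (v j)
  map_add' u v := by
    funext j
    cases j with
    | zero => simp
    | succ j => simp
  map_smul' a v := by
    funext j
    cases j with
    | zero => simp
    | succ j => simp

noncomputable def dd (k : Fin n) : T.VV →ₗ[K] T.VV where
  toFun v := fun j => T.del k j (v (j + 1))
  map_add' u v := by funext j; simp
  map_smul' a v := by funext j; simp

@[simp] theorem XX_zero (l : Fin n) (v : T.VV) : T.XX l v 0 = 0 := rfl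
@[simp] theorem XX_succ (l : Fin n) (v : T.VV) (j : ℕ) : T.XX l v (j + 1) = T.x j l (v j) := rfl
@[simp] theorem dd_apply (k : Fin n) (v : T.VV) (j : ℕ) : T.dd k v j = T.del k j (v (j + 1)) := rfl

/-- the data for the core argument -/
noncomputable def toKDat (hc : ∀ j p q, c j p q = c j q p) : KDat K n m c T.VV where
  X := T.XX
  d := T.dd
  sq i v := by
    funext j
    simp only [Finset.sum_apply, Pi.smul_apply, Pi.zero_apply]
    match j with
    | 0 => simp
    | 1 => simp
    | j + 2 => simpa using T.sq j i (v j)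
  cl k l v := by
    funext j
    cases j with
    | zero =>
      rw [dd_apply, XX_succ, T.del_x hc]
      simp only [cor, LinearMap.zero_apply, sub_zero, Pi.sub_apply, XX_zero]
      split_ifs <;> rfl
    | succ j =>
      rw [dd_apply, XX_succ, T.del_x hc]
      simp only [cor, LinearMap.comp_apply, Pi.sub_apply, XX_succ, dd_apply]
      split_ifs <;> rfl
  inj f hf := by
    funext i j
    have h := T.inj j (fun i => f i j) (fun l => by
      have h1 := congrFun (hf l) (j + 1)
      simpa only [Finset.sum_apply, Pi.smul_apply, Pi.zero_apply, XX_succ] using h1)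
    exact congrFun h i
  v0 := fun j => if j = 0 then 1 else 0
  v0ne := by
    intro h
    have h1 := congrFun (congrFun h 0) (Fin.cast T.b0.symm 0)
    simp at h1
  dv0 k := by
    funext j
    simp

theorem b_growth (k : ℕ) : m * T.b k + T.b (k + 2) ≤ n * T.b (k + 1) := by
  let G : (Fin m → T.Vj k) →ₗ[K] (Fin n → T.Vj (k + 1)) :=
    { toFun := fun g l => ∑ i, ∑ p, c i l p • T.x k p (g i)
      map_add' := fun g g' => by
        funext l
        simp only [Pi.add_apply, map_add, smul_add, Finset.sum_add_distrib]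
      map_smul' := fun a g => by
        funext l
        simp only [Pi.smul_apply, map_smul, RingHom.id_apply, Finset.smul_sum]
        apply Finset.sum_congr rfl; intro i _
        apply Finset.sum_congr rfl; intro p _
        rw [smul_comm] }
  have hG : Function.Injective G := by
    rw [← LinearMap.ker_eq_bot, LinearMap.ker_eq_bot']
    intro g hg
    exact T.inj k g (fun l => congrFun hg l)
  have h1 := LinearMap.finrank_range_of_inj hG
  have h2 : LinearMap.range G ≤ LinearMap.ker (T.sg (k + 1)) := by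
    rintro _ ⟨g, rfl⟩
    rw [LinearMap.mem_ker, sg_apply]
    show ∑ l, T.x (k + 1) l (∑ i, ∑ p, c i l p • T.x k p (g i)) = 0
    simp only [map_sum, map_smul]
    rw [Finset.sum_comm]
    exact Finset.sum_eq_zero (fun i _ => T.sq k i (g i))
  have h3 := Submodule.finrank_mono h2
  have h4 := LinearMap.finrank_range_add_finrank_ker (T.sg (k + 1))
  rw [LinearMap.range_eq_top.mpr (T.sg_surj (k + 1)), finrank_top] at h4
  have h5 : Module.finrank K (Fin m → T.Vj k) = m * T.b k := by
    rw [Module.finrank_pi_fintype]; simp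
  have h6 : Module.finrank K (Fin n → T.Vj (k + 1)) = n * T.b (k + 1) := by
    rw [Module.finrank_pi_fintype]; simp
  have h7 : Module.finrank K (T.Vj (k + 1 + 1)) = T.b (k + 2) := by simp
  rw [h7, h6] at h4
  rw [h1, h5] at h3
  omega

include T in
theorem four_m_le : 4 * m ≤ n ^ 2 := by
  apply growth _ _ T.b
  · rw [T.b0]; exact Nat.one_pos
  · exact T.b_growth

end Strands

/-- vanishing of the dual of `Tor_1(R,K)_3` -/
theorem KDat.c1 {V : Type*} [AddCommGroup V] [Module K V] (S : KDat K n m c V)
    (hc : ∀ j p q, c j p q = c j q p)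
    (φ : Fin m → Fin n → K) (h : ∀ a b l, ∑ j, (c j a l * φ j b - c j b l * φ j a) = 0) :
    φ = 0 := by
  have hsym : ∀ a l b, ∑ j, c j a l * φ j b = ∑ j, c j b l * φ j a := by
    intro a l b
    rw [← sub_eq_zero, ← Finset.sum_sub_distrib]
    exact h a b l
  have h1 : (fun j => ∑ b, φ j b • S.X b S.v0) = 0 := by
    apply S.inj
    intro a
    have h2 : ∑ j, ∑ l, c j a l • S.X l (∑ b, φ j b • S.X b S.v0) =
        ∑ l, ∑ b, (∑ j, c j a l * φ j b) • S.X l (S.X b S.v0) := by
      simp only [map_sum, map_smul, Finset.smul_sum, smul_smul, Finset.sum_smul]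
      rw [Finset.sum_comm]
      apply Finset.sum_congr rfl; intro l _
      rw [Finset.sum_comm]
    rw [h2]
    have h3 : ∀ l b, ∑ j, c j a l * φ j b = ∑ j, φ j a * c j l b := by
      intro l b
      rw [hsym a l b]
      apply Finset.sum_congr rfl; intro j _
      rw [hc j b l, mul_comm]
    simp only [h3, Finset.sum_smul]
    have h4 : ∑ l, ∑ b, ∑ j, (φ j a * c j l b) • S.X l (S.X b S.v0) =
        ∑ j, φ j a • ∑ l, ∑ b, c j l b • S.X l (S.X b S.v0) := by
      simp only [Finset.smul_sum, smul_smul]
      rw [Finset.sum_congr rfl (fun l _ => Finset.sum_comm)]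
      rw [Finset.sum_comm]
    rw [h4]
    apply Finset.sum_eq_zero; intro j _
    rw [S.sq, smul_zero]
  funext j b
  have h5 := congrArg (S.d b) (congrFun h1 j)
  simp only [map_sum, map_smul, Pi.zero_apply, map_zero, S.cl, S.dv0, sub_zero] at h5
  have h6 : ∑ x, φ j x • (if b = x then S.v0 else (0 : V)) = φ j b • S.v0 := by
    rw [Finset.sum_eq_single b]
    · simp
    · intro x _ hx; rw [if_neg (Ne.symm hx), smul_zero]
    · simp
  rw [h6] at h5
  exact (smul_eq_zero.mp h5).resolve_right S.v0ne

end Pool.Agent.H17.Kz
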